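import Pool.Agent.J6H85.ZO.Cnt

/-!
# The theorem for `HamBar n`
-/

set_option autoImplicit false

open Set Filter Topology Function TopologicalSpace MeasureTheory
open Pool.Agent.Y453.HB
open Pool.Agent.Y309.HB
open Pool.Agent.N235.DH
open Pool.Agent.J6H85.LR (Prods Conj Comm sc cpy cpy_mem sc_coe mem_Sh)
open scoped commutatorElement

namespace Pool.Agent.J6H85.ZO.Par

variable {n : ℕ} {Γ : Subgroup (E n ≃ₜ E n)} (G : Set (E n) → Set Γ)

def UniformlyNormallyGenerated (A : Set Γ) : Prop :=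
  ∀ K, Inner K → ∃ K', Inner K' ∧ ∃ F : Set Γ, F ⊆ A ∧ F.Finite ∧ ∃ (k : ℕ) (ε : ℝ), 0 < ε ∧
    SmallIn G K ε ⊆ Prods (ConjIn G K' {x | x ∈ F ∨ x⁻¹ ∈ F}) k

def LocallyBounded (ν : Γ → ℝ) : Prop :=
  ∀ K, Inner K → ∃ ε C : ℝ, 0 < ε ∧ ∀ φ ∈ SmallIn G K ε, ν φ ≤ C

def Statement (Γ : Subgroup (E n ≃ₜ E n)) (G : Set (E n) → Set Γ) : Prop :=
  ZeroOneLaw G ∧
  List.TFAE [commutator Γ = ⊤, Cardinal.mk (Abelianization Γ) < Cardinal.continuum, Nonmeagre G (commutator Γ),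
    LocallyUniformlyPerfect G] ∧
  (∀ A : Set Γ, A.Countable → List.TFAE [Subgroup.normalClosure A = ⊤,
    Cardinal.mk (Γ ⧸ Subgroup.normalClosure A) < Cardinal.continuum, Nonmeagre G (Subgroup.normalClosure A),
    UniformlyNormallyGenerated G A]) ∧
  (∀ s : ℝ, 0 < s → s ≤ 1 → List.TFAE [Subgroup.normalClosure (LR.Par.Sh Γ s) = ⊤,
    Cardinal.mk (Γ ⧸ Subgroup.normalClosure (LR.Par.Sh Γ s)) < Cardinal.continuum,
    Nonmeagre G (Subgroup.normalClosure (LR.Par.Sh Γ s)),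
    LocallyUniformlyGenerated G (LR.Par.Sh Γ s)]) ∧
  (∀ A : Set Γ, Cardinal.mk A < Cardinal.continuum → Subgroup.normalClosure A = ⊤ →
    commutator Γ = ⊤) ∧
  (∀ A : Set Γ, A.Countable → Subgroup.normalClosure A = ⊤ → ∀ ν : Γ → ℝ,
      (∀ φ ψ, ν (φ * ψ) ≤ ν φ + ν ψ) → (∀ φ ψ, ν (ψ * φ * ψ⁻¹) = ν φ) → LocallyBounded G ν) ∧
  (IsSimpleGroup Γ ↔ commutator Γ = ⊤ ∧
    ∀ s : ℝ, 0 < s → s ≤ 1 → Subgroup.normalClosure (LR.Par.Sh Γ s) = ⊤)

end Pool.Agent.J6H85.ZO.Par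

namespace Pool.Agent.J6H85.ZO

variable {n : ℕ}

open Par (Close Inner NowhereDense Meagre RelOpen BaireProperty SmallIn Cosets ZeroOneLaw
  Nonmeagre LocallyUniformlyPerfect LocallyUniformlyGenerated UniformlyNormallyGenerated
  LocallyBounded Statement)
open LR (Sh)

theorem Ex_inner (m : ℕ) : Inner (Ex n m : Set (E n)) := ⟨(Ex n m).isCompact, Ex_InB m⟩

theorem top_of_unif {N : Subgroup (HamBar n)} {X : Set (E n) → Set (HamBar n)}
    (hX : ∀ K, X K ⊆ N) (h : ∀ K, Inner K → ∃ K', Inner K' ∧ ∃ (k : ℕ) (ε : ℝ), 0 < ε ∧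
      Ba K ε ⊆ Prods (X K') k) : N = ⊤ := by
  apply open_top
  intro K hK hKQ
  obtain ⟨K', -, k, ε, hε, h1⟩ := h K ⟨hK, hKQ⟩
  exact ⟨ε, hε, fun φ hφ => LR.Prods.mem_subgroup (hX K') (h1 hφ)⟩

theorem tfae_comm : List.TFAE [commutator (HamBar n) = ⊤,
    Cardinal.mk (Abelianization (HamBar n)) < Cardinal.continuum,
    Nonmeagre In (commutator (HamBar n)), LocallyUniformlyPerfect (Γ := HamBar n) In] := by
  have t := tame_comm (n := n)
  tfae_have 1 ↔ 2 := t.card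
  tfae_have 1 ↔ 3 := t.nonmeagre
  tfae_have 1 → 4 := by
    intro h K hK
    rw [h] at t
    obtain ⟨m, k, ε, hε, h1⟩ := t.unif_top (K := ⟨K, hK.1⟩) hK.2
    exact ⟨_, Ex_inner m, k, ε, hε, h1⟩
  tfae_have 4 → 1 := fun h => top_of_unif (X := CommIn) (fun K => by
    rintro _ ⟨a, ha, b, hb, rfl⟩
    exact LR.Comm_sub ⟨a, b, rfl⟩) h
  tfae_finish

theorem tfae_frag {s : ℝ} (hs : 0 < s) (hs1 : s ≤ 1) :
    List.TFAE [Subgroup.normalClosure (Sh n s) = ⊤,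
      Cardinal.mk (HamBar n ⧸ Subgroup.normalClosure (Sh n s)) < Cardinal.continuum,
      Nonmeagre In (Subgroup.normalClosure (Sh n s)),
      LocallyUniformlyGenerated In (Sh n s)] := by
  have t := tame_frag (n := n) s hs hs1
  tfae_have 1 ↔ 2 := t.card
  tfae_have 1 ↔ 3 := t.nonmeagre
  tfae_have 1 → 4 := by
    intro h K hK
    rw [h] at t
    obtain ⟨m, k, ε, hε, h1⟩ := t.unif_top (K := ⟨K, hK.1⟩) hK.2
    exact ⟨_, Ex_inner m, k, ε, hε, h1.trans (LR.Prods.mono (Fr_sub s hs hs1 m) le_rfl)⟩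
  tfae_have 4 → 1 := fun h => top_of_unif (X := fun K => ConjIn K (Sh n s))
    (fun K => ConjIn_sub K _) h
  tfae_finish

theorem Pm_sub {F A : Set (HamBar n)} (h : F ⊆ A) (K : Set (E n)) :
    ConjIn K (Pm F) ⊆ Subgroup.normalClosure A := by
  rintro _ ⟨g, -, x, hx, rfl⟩
  refine Subgroup.normalClosure_normal.conj_mem x ?_ g
  rcases hx with hx | hx
  · exact Subgroup.subset_normalClosure (h hx)
  · have h1 := Subgroup.inv_mem _ (Subgroup.subset_normalClosure (h hx))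
    rwa [inv_inv] at h1

theorem tfae_countable {A : Set (HamBar n)} (hA : A.Countable) :
    List.TFAE [Subgroup.normalClosure A = ⊤,
      Cardinal.mk (HamBar n ⧸ Subgroup.normalClosure A) < Cardinal.continuum,
      Nonmeagre In (Subgroup.normalClosure A), UniformlyNormallyGenerated In A] := by
  obtain ⟨a, ha⟩ := enum hA
  obtain ⟨f, t⟩ := tame_countable a
  rw [ha, normalClosure_insert_one] at t
  tfae_have 1 ↔ 2 := t.card
  tfae_have 1 ↔ 3 := t.nonmeagre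
  tfae_have 1 → 4 := by
    intro h K hK
    rw [h] at t
    obtain ⟨m, k, ε, hε, h1⟩ := t.unif_top (K := ⟨K, hK.1⟩) hK.2
    obtain ⟨F, hF, hFf, h2⟩ := Fs_sub ha m
    exact ⟨_, Ex_inner (f m), F, hF, hFf, k * 1, ε, hε, fun φ hφ =>
      LR.Prods.bind (h2 (Ex n (f m))) (h1 hφ)⟩
  tfae_have 4 → 1 := by
    intro h
    apply open_top
    intro K hK hKQ
    obtain ⟨K', -, F, hF, -, k, ε, hε, h1⟩ := h K ⟨hK, hKQ⟩
    exact ⟨ε, hε, fun φ hφ => LR.Prods.mem_subgroup (Pm_sub hF K') (h1 hφ)⟩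
  tfae_finish

theorem norm_bound {G : Type*} [Group G] {ν : G → ℝ} (h1 : ∀ φ ψ, ν (φ * ψ) ≤ ν φ + ν ψ)
    {X : Set G} {C : ℝ} (hC : 0 ≤ C) (hX : ∀ x ∈ X, ν x ≤ C) {k : ℕ} {φ : G}
    (h : φ ∈ Prods X k) : ν φ ≤ ν 1 + k * C := by
  obtain ⟨l, hl, hlX, rfl⟩ := h
  have h2 : ν l.prod ≤ ν 1 + l.length * C := by
    clear hl
    induction l with
    | nil =>
      rw [List.prod_nil, List.length_nil, Nat.cast_zero, zero_mul, add_zero]
    | cons x l ih =>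
      rw [List.prod_cons, List.length_cons]
      have h3 := h1 x l.prod
      have h4 := hX x (hlX x List.mem_cons_self)
      have h5 := ih fun y hy => hlX y (List.mem_cons_of_mem _ hy)
      push_cast
      linarith
  have h3 : (l.length : ℝ) ≤ k := by exact_mod_cast hl
  nlinarith

theorem locally_bounded {A : Set (HamBar n)} (hA : A.Countable)
    (h : Subgroup.normalClosure A = ⊤) (ν : HamBar n → ℝ)
    (h1 : ∀ φ ψ, ν (φ * ψ) ≤ ν φ + ν ψ) (h2 : ∀ φ ψ, ν (ψ * φ * ψ⁻¹) = ν φ) :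
    LocallyBounded In ν := by
  have h3 : UniformlyNormallyGenerated In A := ((tfae_countable hA).out 0 3).1 h
  intro K hK
  obtain ⟨K', -, F, hF, hFf, k, ε, hε, h4⟩ := h3 K hK
  have hfin : (F ∪ (fun x => x⁻¹) '' F).Finite := hFf.union (hFf.image _)
  obtain ⟨C, hC⟩ := (hfin.image ν).bddAbove
  refine ⟨ε, ν 1 + k * max C 0, hε, fun φ hφ => norm_bound h1 (le_max_right C 0) ?_ (h4 hφ)⟩
  rintro _ ⟨g, -, x, hx, rfl⟩
  rw [h2]
  refine le_max_of_le_left (hC ⟨x, ?_, rfl⟩)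
  rcases hx with hx | hx
  · exact Or.inl hx
  · exact Or.inr ⟨x⁻¹, hx, inv_inv x⟩

theorem simple_iff' (hn : 0 < n) : IsSimpleGroup (HamBar n) ↔ commutator (HamBar n) = ⊤ ∧
    ∀ s : ℝ, 0 < s → s ≤ 1 → Subgroup.normalClosure (Sh n s) = ⊤ := by
  constructor
  · intro h
    obtain ⟨hB, hF⟩ := (LR.simple_iff hn).1 h
    refine ⟨?_, hF⟩
    obtain ⟨r, hr, hr1, hS⟩ := LR.CP'_CP (LR.CB_CP' hn hB)
    rw [eq_top_iff, ← hF r hr hr1]
    exact Subgroup.normalClosure_le_normal hS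
  · rintro ⟨hP, hF⟩
    refine (LR.simple_iff hn).2 ⟨LR.CP_CB hn ⟨1, one_pos, le_rfl, ?_⟩, hF⟩
    rw [hP]
    exact subset_univ _

theorem main0 (hn : 0 < n) : Statement (HamBar n) In := by
  refine ⟨zero_one, tfae_comm, fun A hA => tfae_countable hA, fun s hs hs1 => tfae_frag hs hs1,
    fun A hA h => tame_comm.card.2 (abelianization_card hA h),
    fun A hA h ν h1 h2 => locally_bounded hA h ν h1 h2, simple_iff' hn⟩

theorem main_gen (Γ : Subgroup (E n ≃ₜ E n)) (G : Set (E n) → Set Γ) (hn : 0 < n)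
    (h : Γ = HamBar n) (hG : ∀ K (φ : Γ), φ ∈ G K ↔ (φ : E n ≃ₜ E n) ∈ HK n K) :
    Statement Γ G := by
  subst h
  have h1 : G = In := by
    funext K
    ext φ
    exact hG K φ
  subst h1
  exact main0 hn

end Pool.Agent.J6H85.ZO
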