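import Pool.Agent.J6H85.ZO.Top
import Pool.Agent.N235.DH.Fin

/-!
# A subgroup which contains all small elements with support in `K`, for every `K`, is everything
-/

set_option autoImplicit false

open Set Filter Topology Function TopologicalSpace
open Pool.Agent.Y453.HB
open Pool.Agent.Y309.HB
open Pool.Agent.N235.DH

namespace Pool.Agent.J6H85.ZO

variable {n : ℕ}

/-- the elements of `HK n K` at a distance less than `ε` from the identity -/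
def Ba (K : Set (E n)) (ε : ℝ) : Set (HamBar n) :=
  {φ | (φ : E n ≃ₜ E n) ∈ HK n K ∧ ∀ x, dist ((φ : E n ≃ₜ E n) x) x < ε}

variable {N : Subgroup (HamBar n)}

theorem one_param_mem {K : Set (E n)} {ε : ℝ} (hε : 0 < ε) (hN : Ba K ε ⊆ N)
    {Φ : ℝ → (E n ≃ₜ E n)} (hΦ : OneParam K Φ) (h : Φ 1 ∈ HamBar n) : (⟨Φ 1, h⟩ : HamBar n) ∈ N := by
  have hmem : ∀ s, Φ s ∈ HamBar n := fun s => isHam_mem (hΦ.ham s)
  have hzero : Φ 0 = 1 := by
    have h3 := hΦ.add 0 0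
    rw [add_zero] at h3
    exact (mul_eq_left (a := Φ 0)).1 h3.symm
  have hpow : ∀ (m : ℕ) (s : ℝ), Φ (m * s) = Φ s ^ m := by
    intro m s
    induction m with
    | zero => simp [hzero]
    | succ m ih => rw [pow_succ, ← ih, ← hΦ.add]; congr 1; push_cast; ring
  obtain ⟨M, hM⟩ := hΦ.lip
  have h1 : Tendsto (fun m : ℕ => M * (1 / ((m : ℝ) + 1))) atTop (𝓝 0) := by
    simpa using (tendsto_one_div_add_atTop_nhds_zero_nat (𝕜 := ℝ)).const_mul M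
  obtain ⟨m, hm⟩ := (h1.eventually (gt_mem_nhds hε)).exists
  have h2 : (⟨Φ (1 / ((m : ℝ) + 1)), hmem _⟩ : HamBar n) ∈ N := by
    apply hN
    refine ⟨HK_ham (hΦ.ham _) (hΦ.supp _), fun x => ?_⟩
    have h3 := hM (1 / ((m : ℝ) + 1)) 0 x
    rw [hzero, sub_zero, abs_of_nonneg (by positivity)] at h3
    exact h3.trans_lt hm
  have e : (⟨Φ 1, h⟩ : HamBar n) = (⟨Φ (1 / ((m : ℝ) + 1)), hmem _⟩ : HamBar n) ^ (m + 1) := by
    apply Subtype.ext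
    change Φ 1 = Φ (1 / ((m : ℝ) + 1)) ^ (m + 1)
    rw [← hpow]
    congr 1
    push_cast
    field_simp
  rw [e]
  exact N.pow_mem h2 _

theorem list_mem {K : Set (E n)} {ε : ℝ} (hε : 0 < ε) (hN : Ba K ε ⊆ N)
    (l : List (ℝ → (E n ≃ₜ E n))) (hl : ∀ Φ ∈ l, OneParam K Φ) :
    ∀ h : (l.map fun Φ => Φ 1).prod ∈ HamBar n, (⟨(l.map fun Φ => Φ 1).prod, h⟩ : HamBar n) ∈ N := by
  induction l with
  | nil => exact fun _ => N.one_mem
  | cons Ψ l ih =>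
    intro hw
    have hl' : ∀ Φ ∈ l, OneParam K Φ := fun Φ hΦ => hl Φ (List.mem_cons_of_mem _ hΦ)
    have h2 := hl Ψ List.mem_cons_self
    have hw1 : Ψ 1 ∈ HamBar n := isHam_mem (h2.ham 1)
    have hw2 : (l.map fun Φ => Φ 1).prod ∈ HamBar n := isHam_mem (path_mem l hl' 1).1
    have e : (⟨((Ψ :: l).map fun Φ : ℝ → (E n ≃ₜ E n) => Φ 1).prod, hw⟩ : HamBar n) =
        ⟨Ψ 1, hw1⟩ * ⟨(l.map fun Φ => Φ 1).prod, hw2⟩ := by
      apply Subtype.ext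
      have e1 : ((Ψ :: l).map fun Φ : ℝ → (E n ≃ₜ E n) => Φ 1).prod =
          Ψ 1 * (l.map fun Φ => Φ 1).prod := by
        rw [List.map_cons, List.prod_cons]
      exact e1
    rw [e]
    exact N.mul_mem (one_param_mem hε hN h2 _) (ih hl' hw2)

/-- if `u → v`, all in `HK n K`, `N` contains `Ba K ε` and `u k ∈ N` then `v ∈ N` -/
theorem limit_mem {K : Set (E n)} (hK : IsCompact K) {ε : ℝ} (hε : 0 < ε) (hN : Ba K ε ⊆ N)
    {u : ℕ → (E n ≃ₜ E n)} {v : E n ≃ₜ E n} (hu : ∀ k, u k ∈ HK n K) (hv : v ∈ HK n K)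
    (huv : UConv u v) (huN : ∀ k, ∀ h : u k ∈ HamBar n, (⟨u k, h⟩ : HamBar n) ∈ N)
    (hmem : ∀ φ ∈ HK n K, φ ∈ HamBar n) (h : v ∈ HamBar n) : (⟨v, h⟩ : HamBar n) ∈ N := by
  have h7 := uc_mul (uc_inv huv) (uconv_const hK hv.1)
  rw [inv_mul_cancel] at h7
  obtain ⟨k, hk⟩ := (Metric.tendstoUniformly_iff.1 h7.1 ε hε).exists
  have hw : (u k)⁻¹ * v ∈ HK n K := HK_mul hK (HK_inv hK (hu k)) hv
  have h8 : (⟨(u k)⁻¹ * v, hmem _ hw⟩ : HamBar n) ∈ N := hN ⟨hw, fun x => by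
    rw [dist_comm]
    exact hk x⟩
  have e : (⟨v, h⟩ : HamBar n) = ⟨u k, hmem _ (hu k)⟩ * ⟨(u k)⁻¹ * v, hmem _ hw⟩ := by
    apply Subtype.ext
    change v = u k * ((u k)⁻¹ * v)
    rw [mul_inv_cancel_left]
  rw [e]
  exact N.mul_mem (huN k _) h8

/-- **A subgroup which contains the small elements with support in `K`, for every `K`, is the whole
group.** -/
theorem open_top (hN : ∀ K : Set (E n), IsCompact K → K ⊆ {p : E n | Q p < 1} →
    ∃ ε : ℝ, 0 < ε ∧ Ba K ε ⊆ N) : N = ⊤ := by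
  rw [eq_top_iff]
  rintro ⟨φ, hφ⟩ -
  have hham : ∀ v, IsHam v → ∀ h : v ∈ HamBar n, (⟨v, h⟩ : HamBar n) ∈ N := by
    intro v hv h
    obtain ⟨K, hK, hKQ, hvs, w, hwv, hw⟩ := ham_approx hv
    obtain ⟨ε, hε, hNε⟩ := hN K hK hKQ
    choose l hl1 hl2 using hw
    have w1 : ∀ m, IsHam (w m) := fun m => by rw [hl2]; exact (path_mem _ (hl1 m) 1).1
    have w2 : ∀ m x, x ∉ K → w m x = x := fun m => by rw [hl2]; exact (path_mem _ (hl1 m) 1).2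
    refine limit_mem hK hε hNε (fun m => HK_ham (w1 m) (w2 m)) (HK_ham hv hvs) hwv (fun m hw => ?_)
      (fun φ hφ => HK_mem hK hKQ hφ) h
    have e : (⟨w m, hw⟩ : HamBar n) =
        ⟨((l m).map fun Φ => Φ 1).prod, by rw [← hl2]; exact hw⟩ := Subtype.ext (hl2 m)
    rw [e]
    exact list_mem hε hNε (l m) (hl1 m) _
  have hφ' := (mem_iff Pool.Agent.Y907.HB.mul Pool.Agent.Y510.HB.inv uc).1 hφ
  obtain ⟨K, hK, hKQ, h1, u, h2, h3, h4⟩ := hφ'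
  obtain ⟨ε, hε, hNε⟩ := hN K hK hKQ
  exact limit_mem hK hε hNε (fun m => HK_ham (h3 m) (h2 m)) ⟨h1, u, h2, h3, h4⟩
    (uconv_of uc hK h1 h4) (fun m h => hham _ (h3 m) h) (fun φ hφ => HK_mem hK hKQ hφ) hφ

end Pool.Agent.J6H85.ZO
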