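import Pool.Agent.J6H85.ZO.Nik
import Pool.Agent.J6H85.ZO.Open
import Pool.Agent.J6H85.LR.Alg

/-!
# Analytic sets of Hamiltonian homeomorphisms; the zero-one law
-/

set_option autoImplicit false

open Set Filter Topology Function TopologicalSpace MeasureTheory
open Pool.Agent.Y453.HB
open Pool.Agent.Y309.HB
open Pool.Agent.N235.DH
open Pool.Agent.J6H85.LR (Prods Conj Comm)

namespace Pool.Agent.J6H85.ZO

variable {n : ℕ}

/-- `K` is contained in the open unit ball -/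
def InB (K : Compacts (E n)) : Prop := (K : Set (E n)) ⊆ {p : E n | Q p < 1}

theorem GK_le {K : Compacts (E n)} (hK : InB K) : GK K ≤ HamBar n :=
  fun _ h => HK_mem K.isCompact hK h

/-- the inclusion -/
def toH {K : Compacts (E n)} (hK : InB K) : GK K →* HamBar n := Subgroup.inclusion (GK_le hK)

theorem toH_coe {K : Compacts (E n)} (hK : InB K) (φ : GK K) :
    ((toH hK φ : HamBar n) : E n ≃ₜ E n) = φ := rfl

theorem toH_inj {K : Compacts (E n)} (hK : InB K) : Injective (toH hK) :=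
  Subgroup.inclusion_injective _

/-- the inclusion of `GK K` in `GK L` -/
def inc {K L : Compacts (E n)} (h : K ≤ L) : GK K →* GK L := Subgroup.inclusion (GK_mono h)

theorem inc_cont {K L : Compacts (E n)} (h : K ≤ L) : Continuous (inc h) := by
  rw [continuous_iff_seqContinuous]
  intro u a hu
  have h1 := tendsto_iff.1 hu
  rw [Function.comp_def, tendsto_iff]
  exact h1

theorem toH_inc {K L : Compacts (E n)} (h : K ≤ L) (hK : InB K) (hL : InB L) (φ : GK K) :
    toH hL (inc h φ) = toH hK φ := rfl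

theorem InB.sup {K L : Compacts (E n)} (hK : InB K) (hL : InB L) : InB (K ⊔ L) := by
  unfold InB
  rw [Compacts.coe_sup]
  exact union_subset hK hL

/-- all traces of `S` are analytic -/
def Ana (S : Set (HamBar n)) : Prop :=
  ∀ (K : Compacts (E n)) (hK : InB K), AnalyticSet (toH hK ⁻¹' S)

theorem ana_image {L : Compacts (E n)} (hL : InB L) {T : Set (GK L)} (hT : AnalyticSet T) :
    Ana (toH hL '' T) := by
  intro K hK
  have h1 : toH hK ⁻¹' (toH hL '' T) =
      inc (le_sup_left : K ≤ K ⊔ L) ⁻¹' (inc (le_sup_right : L ≤ K ⊔ L) '' T) := by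
    ext φ
    constructor
    · rintro ⟨ψ, hψ, h⟩
      refine ⟨ψ, hψ, ?_⟩
      apply toH_inj (hK.sup hL)
      rw [toH_inc _ hL, toH_inc _ hK, h]
    · rintro ⟨ψ, hψ, h⟩
      refine ⟨ψ, hψ, ?_⟩
      have h2 := congrArg (toH (hK.sup hL)) h
      rwa [toH_inc _ hL, toH_inc _ hK] at h2
  rw [h1]
  exact (hT.image_of_continuous (inc_cont _)).preimage (inc_cont _)

theorem polish_mul (α β : Type*) [TopologicalSpace α] [TopologicalSpace β] [PolishSpace α]
    [PolishSpace β] : PolishSpace (α × β) :=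
  { toSecondCountableTopology := inferInstance
    toIsCompletelyMetrizableSpace := inferInstance }

theorem ana_mul {G : Type*} [Group G] [TopologicalSpace G] [IsTopologicalGroup G] {S T : Set G}
    (hS : AnalyticSet S) (hT : AnalyticSet T) : AnalyticSet {g | ∃ s ∈ S, ∃ t ∈ T, g = s * t} := by
  obtain ⟨β, _, _, f, hf, rfl⟩ := analyticSet_iff_exists_polishSpace_range.1 hS
  obtain ⟨γ, _, _, g, hg, rfl⟩ := analyticSet_iff_exists_polishSpace_range.1 hT
  have := polish_mul β γ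
  have h1 : {x | ∃ s ∈ range f, ∃ t ∈ range g, x = s * t} = range fun p : β × γ => f p.1 * g p.2 := by
    ext x
    constructor
    · rintro ⟨_, ⟨a, rfl⟩, _, ⟨b, rfl⟩, rfl⟩
      exact ⟨(a, b), rfl⟩
    · rintro ⟨⟨a, b⟩, rfl⟩
      exact ⟨_, ⟨a, rfl⟩, _, ⟨b, rfl⟩, rfl⟩
  rw [h1]
  exact analyticSet_range_of_polishSpace
    ((hf.comp continuous_fst).mul (hg.comp continuous_snd))

theorem Prods_succ {G : Type*} [Group G] (X : Set G) (m : ℕ) :
    Prods X (m + 1) = Prods X m ∪ {g | ∃ s ∈ X, ∃ t ∈ Prods X m, g = s * t} := by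
  ext g
  constructor
  · rintro ⟨l, h1, h2, rfl⟩
    cases l with
    | nil => left; exact LR.Prods.one m
    | cons x l =>
      right
      refine ⟨x, h2 x (by simp), l.prod, ⟨l, ?_, fun y hy => h2 y (by simp [hy]), rfl⟩,
        List.prod_cons⟩
      rw [List.length_cons] at h1
      omega
  · rintro (h | ⟨s, hs, t, ht, rfl⟩)
    · exact LR.Prods.mono (subset_refl X) (Nat.le_succ m) h
    · rw [add_comm]
      exact LR.Prods.mul (LR.Prods.single hs) ht

theorem ana_union {α : Type*} [TopologicalSpace α] {S T : Set α} (hS : AnalyticSet S)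
    (hT : AnalyticSet T) : AnalyticSet (S ∪ T) := by
  rw [union_eq_iUnion]
  exact AnalyticSet.iUnion fun b => by cases b <;> assumption

theorem ana_prods {G : Type*} [Group G] [TopologicalSpace G] [IsTopologicalGroup G]
    {S : Set G} (hS : AnalyticSet S) (m : ℕ) : AnalyticSet (Prods S m) := by
  induction m with
  | zero =>
    have h1 : Prods S 0 = {1} := by
      ext g
      constructor
      · rintro ⟨l, h1, h2, rfl⟩
        have : l = [] := List.length_eq_zero_iff.1 (Nat.le_zero.1 h1)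
        subst this
        rfl
      · rintro rfl
        exact LR.Prods.one 0
    rw [h1]
    have h2 : ({1} : Set G) = range (fun _ : Unit => (1 : G)) := by
      ext x
      simp
    rw [h2]
    exact analyticSet_range_of_polishSpace continuous_const
  | succ m ih =>
    rw [Prods_succ]
    exact ana_union ih (ana_mul hS ih)

theorem prods_image {G H : Type*} [Group G] [Group H] (f : G →* H) (S : Set G) (m : ℕ) :
    Prods (f '' S) m = f '' Prods S m := by
  ext h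
  constructor
  · rintro ⟨l, h1, h2, rfl⟩
    have h3 : ∀ x ∈ l, ∃ y ∈ S, f y = x := h2
    obtain ⟨l', h4, h5⟩ : ∃ l' : List G, (∀ y ∈ l', y ∈ S) ∧ l'.map f = l := by
      clear h1 h2
      induction l with
      | nil => exact ⟨[], by simp, rfl⟩
      | cons x l ih =>
        obtain ⟨l', h4, h5⟩ := ih fun y hy => h3 y (by simp [hy])
        obtain ⟨y, hy, hyx⟩ := h3 x (by simp)
        refine ⟨y :: l', ?_, by rw [List.map_cons, hyx, h5]⟩
        intro z hz
        rcases List.mem_cons.1 hz with rfl | hz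
        · exact hy
        · exact h4 z hz
    refine ⟨l'.prod, ⟨l', ?_, h4, rfl⟩, ?_⟩
    · rw [← h5, List.length_map] at h1
      exact h1
    · rw [map_list_prod, h5]
  · rintro ⟨g, hg, rfl⟩
    exact LR.Prods.map f (fun x hx => mem_image_of_mem f hx) hg

/-- an increasing sequence of analytic symmetric sets which generates `N` -/
structure Tame (X : ℕ → Set (HamBar n)) (N : Subgroup (HamBar n)) : Prop where
  mono : Monotone X
  ana : ∀ m, ∃ (L : Compacts (E n)) (hL : InB L) (T : Set (GK L)), AnalyticSet T ∧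
    X m = toH hL '' T
  inv : ∀ m, ∀ x ∈ X m, x⁻¹ ∈ X m
  sub : ∀ m, X m ⊆ N
  gen : N ≤ Subgroup.closure (⋃ m, X m)

theorem Tame.union {X : ℕ → Set (HamBar n)} {N : Subgroup (HamBar n)} (h : Tame X N) :
    (N : Set (HamBar n)) ⊆ ⋃ m, Prods (X m) m := by
  let M : Subgroup (HamBar n) :=
    { carrier := ⋃ m, Prods (X m) m
      one_mem' := by
        exact mem_iUnion.2 ⟨0, LR.Prods.one 0⟩
      mul_mem' := by
        intro a b ha hb
        obtain ⟨k, hk⟩ := mem_iUnion.1 ha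
        obtain ⟨m, hm⟩ := mem_iUnion.1 hb
        exact mem_iUnion.2 ⟨k + m, LR.Prods.mul
          (LR.Prods.mono (h.mono (Nat.le_add_right k m)) le_rfl hk)
          (LR.Prods.mono (h.mono (Nat.le_add_left m k)) le_rfl hm)⟩
      inv_mem' := by
        intro a ha
        obtain ⟨k, hk⟩ := mem_iUnion.1 ha
        exact mem_iUnion.2 ⟨k, LR.Prods.inv (h.inv k) hk⟩ }
  have h1 : Subgroup.closure (⋃ m, X m) ≤ M := by
    rw [Subgroup.closure_le]
    intro x hx
    obtain ⟨m, hm⟩ := mem_iUnion.1 hx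
    exact mem_iUnion.2 ⟨m + 1, LR.Prods.mono (h.mono (Nat.le_succ m)) (by omega)
      (LR.Prods.single hm)⟩
  exact fun x hx => h1 (h.gen hx)

theorem toH_nonmeagre {K : Compacts (E n)} (hK : InB K) {N : Subgroup (HamBar n)} {ε : ℝ}
    (hε : 0 < ε) (h : Ba (K : Set (E n)) ε ⊆ (N : Set (HamBar n))) : ¬ IsMeagre (toH hK ⁻¹' (N : Set (HamBar n))) := by
  intro hm
  have h1 := ball_nhds (1 : GK K) hε
  obtain ⟨U, hU1, hU2, hU3⟩ := mem_nhds_iff.1 h1
  refine not_isMeagre_of_isOpen hU2 ⟨1, hU3⟩ (hm.mono fun φ hφ => ?_)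
  exact h ⟨φ.2, fun x => hU1 hφ x⟩

/-- **the uniform version** -/
theorem Tame.unif {X : ℕ → Set (HamBar n)} {N : Subgroup (HamBar n)} (h : Tame X N)
    {K : Compacts (E n)} (hK : InB K) (hm : ¬ IsMeagre (toH hK ⁻¹' (N : Set (HamBar n)))) :
    ∃ (m k : ℕ) (ε : ℝ), 0 < ε ∧ Ba K ε ⊆ Prods (X m) k := by
  obtain ⟨m, hm2⟩ : ∃ m, ¬ IsMeagre (toH hK ⁻¹' (Prods (X m) m)) := by
    by_contra hc
    push Not at hc
    apply hm
    refine IsMeagre.mono (fun φ hφ => ?_) (isMeagre_iUnion hc)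
    obtain ⟨m, hm⟩ := mem_iUnion.1 (h.union hφ)
    exact mem_iUnion.2 ⟨m, hm⟩
  have hana : AnalyticSet (toH hK ⁻¹' (Prods (X m) m)) := by
    obtain ⟨L, hL, T, hT, hX⟩ := h.ana m
    rw [hX, prods_image]
    exact ana_image hL (ana_prods hT m) K hK
  obtain ⟨V, hV, hV2⟩ := pettis (analytic_baire hana) hm2
  obtain ⟨ε, hε, hε2⟩ := nhds_one_ball hV
  refine ⟨m, m + m, ε, hε, fun φ hφ => ?_⟩
  obtain ⟨a, ha, b, hb, hab⟩ := hV2 ⟨φ, hφ.1⟩ (hε2 ⟨φ, hφ.1⟩ hφ.2)
  have e : φ = toH hK a * (toH hK b)⁻¹ := by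
    rw [← map_inv, ← map_mul, ← hab]
    rfl
  rw [e]
  exact LR.Prods.mul ha (LR.Prods.inv (h.inv m) hb)

theorem Tame.unif_top {X : ℕ → Set (HamBar n)} (h : Tame X (⊤ : Subgroup (HamBar n)))
    {K : Compacts (E n)} (hK : InB K) :
    ∃ (m k : ℕ) (ε : ℝ), 0 < ε ∧ Ba K ε ⊆ Prods (X m) k :=
  h.unif hK (toH_nonmeagre hK one_pos fun _ _ => Subgroup.mem_top _)

theorem Tame.top {X : ℕ → Set (HamBar n)} {N : Subgroup (HamBar n)} (h : Tame X N)
    (hm : ∀ (K : Compacts (E n)) (hK : InB K), ¬ IsMeagre (toH hK ⁻¹' (N : Set (HamBar n)))) :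
    N = ⊤ := by
  apply open_top
  intro K hK hKQ
  obtain ⟨m, k, ε, hε, h1⟩ := h.unif (K := ⟨K, hK⟩) hKQ (hm ⟨K, hK⟩ hKQ)
  exact ⟨ε, hε, fun φ hφ => LR.Prods.mem_subgroup (h.sub m) (h1 hφ)⟩

/-- **the zero-one law** -/
theorem Tame.meagre {X : ℕ → Set (HamBar n)} {N : Subgroup (HamBar n)} (h : Tame X N)
    (hN : N ≠ ⊤) : ∃ (K₀ : Compacts (E n)) (_ : InB K₀), ∀ (K : Compacts (E n)) (hK : InB K),
      K₀ ≤ K → IsMeagre (toH hK ⁻¹' (N : Set (HamBar n))) := by
  by_contra hc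
  push Not at hc
  apply hN
  apply open_top
  intro K hK hKQ
  obtain ⟨L, hL, hKL, h1⟩ := hc ⟨K, hK⟩ hKQ
  obtain ⟨m, k, ε, hε, h1⟩ := h.unif hL h1
  refine ⟨ε, hε, fun φ hφ => LR.Prods.mem_subgroup (h.sub m) (h1 ⟨HK_mono hKL hφ.1, hφ.2⟩)⟩

/-- if countably many cosets of `N` cover a nonmeagre set then `N` is not meagre -/
theorem coset_nonmeagre {N : Subgroup (HamBar n)} {C : Set (HamBar n)} (hC : C.Countable)
    {K : Compacts (E n)} (hK : InB K) (hm : IsMeagre (toH hK ⁻¹' (N : Set (HamBar n)))) :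
    IsMeagre (toH hK ⁻¹' {φ | ∃ c ∈ C, c⁻¹ * φ ∈ N}) := by
  have h1 : toH hK ⁻¹' {φ | ∃ c ∈ C, c⁻¹ * φ ∈ N} = ⋃ c : C, toH hK ⁻¹' {φ | (c : HamBar n)⁻¹ * φ ∈ N} := by
    ext φ
    simp
  rw [h1]
  have := hC.to_subtype
  refine isMeagre_iUnion fun c => ?_
  by_cases hne : (toH hK ⁻¹' {φ | (c : HamBar n)⁻¹ * φ ∈ N}).Nonempty
  · obtain ⟨ψ, hψ⟩ := hne
    refine IsMeagre.mono (fun φ hφ => ?_) (isMeagre_smul hm ψ⁻¹)
    show toH hK (ψ⁻¹ * φ) ∈ N
    have h2 : (c : HamBar n)⁻¹ * toH hK φ ∈ N := hφ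
    have h3 : (c : HamBar n)⁻¹ * toH hK ψ ∈ N := hψ
    have h4 := N.mul_mem (N.inv_mem h3) h2
    rw [map_mul, map_inv]
    have e : ((c : HamBar n)⁻¹ * toH hK ψ)⁻¹ * ((c : HamBar n)⁻¹ * toH hK φ) =
        (toH hK ψ)⁻¹ * toH hK φ := by group
    rwa [e] at h4
  · rw [not_nonempty_iff_eq_empty] at hne
    rw [hne]
    exact IsMeagre.empty

/-- a tame subgroup of countable index is the whole group -/
theorem Tame.index {X : ℕ → Set (HamBar n)} {N : Subgroup (HamBar n)} (h : Tame X N)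
    {C : Set (HamBar n)} (hC : C.Countable) (hCN : ∀ φ : HamBar n, ∃ c ∈ C, c⁻¹ * φ ∈ N) :
    N = ⊤ := by
  refine h.top fun K hK hm => ?_
  have h1 := coset_nonmeagre hC hK hm
  have h2 : toH hK ⁻¹' {φ | ∃ c ∈ C, c⁻¹ * φ ∈ N} = univ := eq_univ_of_forall fun φ => hCN _
  rw [h2] at h1
  exact not_isMeagre_of_isOpen isOpen_univ ⟨1, mem_univ _⟩ h1

end Pool.Agent.J6H85.ZO
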