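import Pool.Agent.J6H85.ZO.Ana
import Pool.Agent.J6H85.LR.Two

/-!
# Three families of subgroups: commutators, conjugates of an element, fragments
-/

set_option autoImplicit false

open Set Filter Topology Function TopologicalSpace MeasureTheory
open Pool.Agent.Y453.HB
open Pool.Agent.Y309.HB
open Pool.Agent.N235.DH
open Pool.Agent.J6H85.LR (Prods Conj Comm Sh sc cpy cpy_mem sc_coe mem_Sh)
open scoped commutatorElement

namespace Pool.Agent.J6H85.ZO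

variable {n : ℕ}

/-! ### exhaustion -/

/-- an exhaustion of the open unit ball -/
noncomputable def Ex (n m : ℕ) : Compacts (E n) :=
  ⟨{x | Q x ≤ 1 - 1 / ((m : ℝ) + 2)}, (tri n).2.2.2.2.1 _⟩

theorem Ex_InB (m : ℕ) : InB (Ex n m) := by
  intro x hx
  have h1 : Q x ≤ 1 - 1 / ((m : ℝ) + 2) := hx
  have h2 : 0 < 1 / ((m : ℝ) + 2) := by positivity
  show Q x < 1
  linarith

theorem Ex_mono : Monotone (Ex n) := by
  intro k m hkm x hx
  have h1 : Q x ≤ 1 - 1 / ((k : ℝ) + 2) := hx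
  show Q x ≤ 1 - 1 / ((m : ℝ) + 2)
  have h2 : (k : ℝ) ≤ m := by exact_mod_cast hkm
  have h3 : 1 / ((m : ℝ) + 2) ≤ 1 / ((k : ℝ) + 2) := one_div_le_one_div_of_le (by positivity) (by linarith)
  linarith

theorem exists_Ex {K : Set (E n)} (hK : IsCompact K) (hKQ : K ⊆ {p : E n | Q p < 1}) :
    ∃ m, K ⊆ (Ex n m : Set (E n)) := by
  rcases K.eq_empty_or_nonempty with rfl | hne
  · exact ⟨0, empty_subset _⟩
  obtain ⟨x₀, hx₀, hmax⟩ := hK.exists_isMaxOn hne (tri n).2.2.2.1.continuousOn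
  have h1 : Q x₀ < 1 := hKQ hx₀
  obtain ⟨m, hm⟩ := ((tendsto_one_div_add_atTop_nhds_zero_nat (𝕜 := ℝ)).eventually
    (gt_mem_nhds (sub_pos.2 h1))).exists
  refine ⟨m, fun x hx => ?_⟩
  have h2 : Q x ≤ Q x₀ := hmax hx
  show Q x ≤ 1 - 1 / ((m : ℝ) + 2)
  have h3 : 1 / ((m : ℝ) + 2) ≤ 1 / ((m : ℝ) + 1) := one_div_le_one_div_of_le (by positivity) (by linarith)
  linarith

/-- the elements of `HK n K` -/
def In (K : Set (E n)) : Set (HamBar n) := {φ | (φ : E n ≃ₜ E n) ∈ HK n K}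

theorem In_mono {K L : Set (E n)} (h : K ⊆ L) : In K ⊆ In L := fun _ hφ => HK_mono h hφ

theorem exists_In (φ : HamBar n) : ∃ m, φ ∈ In (Ex n m : Set (E n)) := by
  obtain ⟨K, hK, hKQ, h1, u, h2, h3, h4⟩ := (mem_iff Pool.Agent.Y907.HB.mul
    Pool.Agent.Y510.HB.inv uc).1 φ.2
  obtain ⟨m, hm⟩ := exists_Ex hK hKQ
  exact ⟨m, HK_mono hm ⟨h1, u, h2, h3, h4⟩⟩

theorem In_lift {K : Compacts (E n)} (hK : InB K) {φ : HamBar n} (h : φ ∈ In (K : Set (E n))) :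
    ∃ ψ : GK K, toH hK ψ = φ := ⟨⟨φ, h⟩, rfl⟩

theorem toH_In {K : Compacts (E n)} (hK : InB K) (ψ : GK K) : toH hK ψ ∈ In (K : Set (E n)) := ψ.2

/-- the commutators of elements of `In K` -/
def CommIn (K : Set (E n)) : Set (HamBar n) := {φ | ∃ a ∈ In K, ∃ b ∈ In K, φ = ⁅a, b⁆}

/-- the conjugates of the elements of `X` by elements of `In K` -/
def ConjIn (K : Set (E n)) (X : Set (HamBar n)) : Set (HamBar n) :=
  {φ | ∃ h ∈ In K, ∃ x ∈ X, φ = h * x * h⁻¹}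

/-! ### commutators -/

theorem tame_comm : Tame (fun m => CommIn (Ex n m : Set (E n))) (commutator (HamBar n)) where
  mono := by
    rintro k m hkm _ ⟨a, ha, b, hb, rfl⟩
    exact ⟨a, In_mono (Ex_mono hkm) ha, b, In_mono (Ex_mono hkm) hb, rfl⟩
  ana := by
    intro m
    have := polish_mul (GK (Ex n m)) (GK (Ex n m))
    refine ⟨Ex n m, Ex_InB m, range fun p : GK (Ex n m) × GK (Ex n m) => ⁅p.1, p.2⁆,
      analyticSet_range_of_polishSpace ?_, ?_⟩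
    · simp only [commutatorElement_def]
      fun_prop
    · ext φ
      constructor
      · rintro ⟨a, ha, b, hb, rfl⟩
        obtain ⟨a', rfl⟩ := In_lift (Ex_InB m) ha
        obtain ⟨b', rfl⟩ := In_lift (Ex_InB m) hb
        exact ⟨⁅a', b'⁆, ⟨(a', b'), rfl⟩, map_commutatorElement _ _ _⟩
      · rintro ⟨_, ⟨⟨a, b⟩, rfl⟩, rfl⟩
        exact ⟨_, toH_In (Ex_InB m) a, _, toH_In (Ex_InB m) b, map_commutatorElement _ _ _⟩
  inv := by
    rintro m _ ⟨a, ha, b, hb, rfl⟩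
    exact ⟨b, hb, a, ha, commutatorElement_inv a b⟩
  sub := by
    rintro m _ ⟨a, ha, b, hb, rfl⟩
    exact LR.Comm_sub ⟨a, b, rfl⟩
  gen := by
    rw [commutator_eq_closure, Subgroup.closure_le]
    rintro _ ⟨a, b, rfl⟩
    apply Subgroup.subset_closure
    obtain ⟨k, hk⟩ := exists_In a
    obtain ⟨m, hm⟩ := exists_In b
    exact mem_iUnion.2 ⟨k + m, a, In_mono (Ex_mono (Nat.le_add_right k m)) hk, b,
      In_mono (Ex_mono (Nat.le_add_left m k)) hm, rfl⟩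

/-! ### conjugates of an element -/

theorem ConjIn_mono {K L : Set (E n)} (h : K ⊆ L) {X Y : Set (HamBar n)} (hXY : X ⊆ Y) :
    ConjIn K X ⊆ ConjIn L Y := by
  rintro _ ⟨a, ha, x, hx, rfl⟩
  exact ⟨a, In_mono h ha, x, hXY hx, rfl⟩

theorem ConjIn_sub (K : Set (E n)) (X : Set (HamBar n)) :
    ConjIn K X ⊆ Subgroup.normalClosure X := by
  rintro _ ⟨h, -, x, hx, rfl⟩
  exact Subgroup.normalClosure_normal.conj_mem x (Subgroup.subset_normalClosure hx) h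

theorem normalClosure_pair (g : HamBar n) :
    Subgroup.normalClosure {g, g⁻¹} = Subgroup.normalClosure {g} := by
  apply le_antisymm
  · apply Subgroup.normalClosure_le_normal
    rintro x (rfl | rfl)
    · exact Subgroup.subset_normalClosure rfl
    · exact Subgroup.inv_mem _ (Subgroup.subset_normalClosure rfl)
  · exact Subgroup.normalClosure_mono fun x hx => by left; exact hx

theorem tame_single {g : HamBar n} {m₀ : ℕ} (hg : g ∈ In (Ex n m₀ : Set (E n))) :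
    Tame (fun m => ConjIn (Ex n (m₀ + m) : Set (E n)) {g, g⁻¹}) (Subgroup.normalClosure {g}) where
  mono := by
    intro k m hkm
    exact ConjIn_mono (Ex_mono (Nat.add_le_add_left hkm m₀)) (subset_refl _)
  ana := by
    intro m
    obtain ⟨g', hg'⟩ := In_lift (Ex_InB (m₀ + m)) (In_mono (Ex_mono (Nat.le_add_right m₀ m)) hg)
    refine ⟨Ex n (m₀ + m), Ex_InB _,
      (range fun h : GK (Ex n (m₀ + m)) => h * g' * h⁻¹) ∪
        (range fun h : GK (Ex n (m₀ + m)) => h * g'⁻¹ * h⁻¹),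
      ana_union (analyticSet_range_of_polishSpace (by fun_prop))
        (analyticSet_range_of_polishSpace (by fun_prop)), ?_⟩
    ext φ
    constructor
    · rintro ⟨h, hh, x, rfl | rfl, rfl⟩
      · obtain ⟨h', rfl⟩ := In_lift (Ex_InB (m₀ + m)) hh
        refine ⟨h' * g' * h'⁻¹, Or.inl ⟨h', rfl⟩, ?_⟩
        rw [map_mul, map_mul, map_inv, hg']
      · obtain ⟨h', rfl⟩ := In_lift (Ex_InB (m₀ + m)) hh
        refine ⟨h' * g'⁻¹ * h'⁻¹, Or.inr ⟨h', rfl⟩, ?_⟩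
        rw [map_mul, map_mul, map_inv, map_inv, hg']
    · rintro ⟨_, ⟨h, rfl⟩ | ⟨h, rfl⟩, rfl⟩
      · refine ⟨_, toH_In (Ex_InB _) h, g, Or.inl rfl, ?_⟩
        simp only [map_mul, map_inv, hg']
      · refine ⟨_, toH_In (Ex_InB _) h, g⁻¹, Or.inr rfl, ?_⟩
        simp only [map_mul, map_inv, hg']
  inv := by
    rintro m _ ⟨h, hh, x, hx, rfl⟩
    refine ⟨h, hh, x⁻¹, ?_, by group⟩
    rcases hx with rfl | rfl
    · right; rfl
    · left; exact inv_inv g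
  sub := by
    intro m
    rw [← normalClosure_pair]
    exact ConjIn_sub _ _
  gen := by
    show Subgroup.closure (Group.conjugatesOfSet {g}) ≤ _
    rw [Subgroup.closure_le]
    intro x hx
    obtain ⟨a, ha, hax⟩ := Group.mem_conjugatesOfSet_iff.1 hx
    obtain ⟨c, hc⟩ := isConj_iff.1 hax
    obtain ⟨k, hk⟩ := exists_In c
    apply Subgroup.subset_closure
    exact mem_iUnion.2 ⟨k, c, In_mono (Ex_mono (Nat.le_add_left k m₀)) hk, g, Or.inl rfl, by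
      rw [← hc, mem_singleton_iff.1 ha]⟩

/-! ### fragments -/

theorem sc_HK {t : ℝ} (ht : 0 < t) (ht1 : t ≤ 1) {m : ℕ} {g : E n ≃ₜ E n}
    (hg : g ∈ HK n (Ex n m : Set (E n))) : cpy 0 t ht g ∈ HK n (Ex n m : Set (E n)) := by
  obtain ⟨h1, u, h2, h3, h4⟩ := hg
  have hfix : ∀ w : E n ≃ₜ E n, (∀ x, x ∉ (Ex n m : Set (E n)) → w x = x) → ∀ x,
      x ∉ (Ex n m : Set (E n)) → cpy 0 t ht w x = x := by
    intro w hw x hx
    have hx' : t⁻¹ • (x - 0) ∉ (Ex n m : Set (E n)) := by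
      intro hc
      apply hx
      have h5 : Q (t⁻¹ • (x - 0)) ≤ 1 - 1 / ((m : ℝ) + 2) := hc
      rw [sub_zero, (tri n).2.2.1] at h5
      show Q x ≤ 1 - 1 / ((m : ℝ) + 2)
      have h6 : 1 ≤ (t⁻¹) ^ 2 := one_le_pow₀ ((one_le_inv₀ ht).2 ht1)
      have h7 := (tri n).2.2.2.2.2.1 x
      nlinarith
    rw [LR.cpy_apply', hw _ hx', smul_smul, mul_inv_cancel₀ ht.ne', one_smul, sub_zero, zero_add]
  have h5 := uc_mul (uc_mul (LR.uc_af 0 t ht) (uconv_of uc (Ex n m).isCompact h1 h4))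
    (uc_inv (LR.uc_af 0 t ht))
  exact ⟨hfix _ h1, fun k => cpy 0 t ht (u k), fun k => hfix _ (h2 k),
    fun k => LR.cpy_ham ht (by rw [Pool.Agent.R773.HN.nm_zero]; linarith) (h3 k), h5.1⟩

/-- the scaling map on `GK (Ex n m)` -/
noncomputable def scG (t : ℝ) (ht : 0 < t) (ht1 : t ≤ 1) (m : ℕ) (g : GK (Ex n m)) :
    GK (Ex n m) := ⟨cpy 0 t ht g, sc_HK ht ht1 g.2⟩

theorem scG_cont (t : ℝ) (ht : 0 < t) (ht1 : t ≤ 1) (m : ℕ) :
    Continuous (scG (n := n) t ht ht1 m) := by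
  rw [continuous_iff_seqContinuous]
  intro u a hu
  have h1 := tendsto_iff.1 hu
  rw [Function.comp_def, tendsto_iff]
  exact uc_mul (uc_mul (LR.uc_af 0 t ht) h1) (uc_inv (LR.uc_af 0 t ht))

/-- the fragments -/
def Fr (t : ℝ) (ht : 0 < t) (ht1 : t ≤ 1) (m : ℕ) : Set (HamBar n) :=
  {φ | ∃ h ∈ In (Ex n m : Set (E n)), ∃ g ∈ In (Ex n m : Set (E n)),
    φ = h * sc t ht ht1 g * h⁻¹}

theorem Fr_sub (t : ℝ) (ht : 0 < t) (ht1 : t ≤ 1) (m : ℕ) :
    Fr (n := n) t ht ht1 m ⊆ ConjIn (Ex n m : Set (E n)) (Sh n t) := by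
  rintro _ ⟨h, hh, g, hg, rfl⟩
  exact ⟨h, hh, _, (mem_Sh ht ht1).2 ⟨g, rfl⟩, rfl⟩

theorem In_inv {K : Compacts (E n)} {φ : HamBar n} (h : φ ∈ In (K : Set (E n))) :
    φ⁻¹ ∈ In (K : Set (E n)) := HK_inv K.isCompact h

theorem tame_frag (t : ℝ) (ht : 0 < t) (ht1 : t ≤ 1) :
    Tame (Fr (n := n) t ht ht1) (Subgroup.normalClosure (Sh n t)) where
  mono := by
    rintro k m hkm _ ⟨h, hh, g, hg, rfl⟩
    exact ⟨h, In_mono (Ex_mono hkm) hh, g, In_mono (Ex_mono hkm) hg, rfl⟩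
  ana := by
    intro m
    have := polish_mul (GK (Ex n m)) (GK (Ex n m))
    have hc := scG_cont (n := n) t ht ht1 m
    refine ⟨Ex n m, Ex_InB m, range fun p : GK (Ex n m) × GK (Ex n m) =>
      p.1 * scG t ht ht1 m p.2 * p.1⁻¹, analyticSet_range_of_polishSpace (by fun_prop), ?_⟩
    ext φ
    constructor
    · rintro ⟨h, hh, g, hg, rfl⟩
      obtain ⟨h', rfl⟩ := In_lift (Ex_InB m) hh
      obtain ⟨g', rfl⟩ := In_lift (Ex_InB m) hg
      exact ⟨_, ⟨(h', g'), rfl⟩, rfl⟩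
    · rintro ⟨_, ⟨⟨h, g⟩, rfl⟩, rfl⟩
      exact ⟨_, toH_In (Ex_InB m) h, _, toH_In (Ex_InB m) g, rfl⟩
  inv := by
    rintro m _ ⟨h, hh, g, hg, rfl⟩
    refine ⟨h, hh, g⁻¹, In_inv hg, ?_⟩
    rw [map_inv]
    group
  sub := fun m => (Fr_sub t ht ht1 m).trans (ConjIn_sub _ _)
  gen := by
    show Subgroup.closure (Group.conjugatesOfSet (Sh n t)) ≤ _
    rw [Subgroup.closure_le]
    intro x hx
    obtain ⟨a, ha, hax⟩ := Group.mem_conjugatesOfSet_iff.1 hx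
    obtain ⟨c, hc⟩ := isConj_iff.1 hax
    obtain ⟨g, rfl⟩ := (mem_Sh ht ht1).1 ha
    obtain ⟨k, hk⟩ := exists_In c
    obtain ⟨m, hm⟩ := exists_In g
    apply Subgroup.subset_closure
    exact mem_iUnion.2 ⟨k + m, c, In_mono (Ex_mono (Nat.le_add_right k m)) hk, g,
      In_mono (Ex_mono (Nat.le_add_left m k)) hm, hc.symm⟩

end Pool.Agent.J6H85.ZO
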