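import Pool.Agent.J6H85.ZO.Par
import Pool.Agent.J6H85.LR.Par

/-!
# The normal closure of a countable set; the abelianization
-/

set_option autoImplicit false

open Set Filter Topology Function TopologicalSpace MeasureTheory
open Pool.Agent.Y453.HB
open Pool.Agent.Y309.HB
open Pool.Agent.N235.DH
open Pool.Agent.J6H85.LR (Prods Conj Comm Sh sc cpy cpy_mem sc_coe mem_Sh)
open scoped commutatorElement

namespace Pool.Agent.J6H85.ZO

variable {n : ℕ}

/-- the first elements and their inverses -/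
def Fs (a : ℕ → HamBar n) (m : ℕ) : Set (HamBar n) := {x | ∃ i ≤ m, x = a i ∨ x = (a i)⁻¹}

theorem tame_countable (a : ℕ → HamBar n) : ∃ f : ℕ → ℕ,
    Tame (fun m => ConjIn (Ex n (f m) : Set (E n)) (Fs a m))
      (Subgroup.normalClosure (range a)) := by
  choose μ hμ using fun i => exists_In (a i)
  let f : ℕ → ℕ := fun m => m + ∑ i ∈ Finset.range (m + 1), μ i
  have hf : Monotone f := by
    intro k m hkm
    have h1 : ∑ i ∈ Finset.range (k + 1), μ i ≤ ∑ i ∈ Finset.range (m + 1), μ i :=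
      Finset.sum_le_sum_of_subset (Finset.range_mono (by omega))
    show k + _ ≤ m + _
    omega
  have hfi : ∀ i m, i ≤ m → μ i ≤ f m := by
    intro i m him
    have h1 : μ i ≤ ∑ i ∈ Finset.range (m + 1), μ i :=
      Finset.single_le_sum (fun _ _ => Nat.zero_le _) (Finset.mem_range.2 (by omega))
    show μ i ≤ m + _
    omega
  refine ⟨f, ⟨fun k m hkm => ConjIn_mono (Ex_mono (hf hkm)) ?_, fun m => ?_, ?_, fun m => ?_, ?_⟩⟩
  · rintro x ⟨i, hi, hx⟩
    exact ⟨i, hi.trans hkm, hx⟩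
  · have h1 : ∀ i : Fin (m + 1), ∃ g : GK (Ex n (f m)), toH (Ex_InB (f m)) g = a i := fun i =>
      In_lift (Ex_InB (f m)) (In_mono (Ex_mono (hfi i m (by omega))) (hμ i))
    choose g hg using h1
    refine ⟨Ex n (f m), Ex_InB _, ⋃ i : Fin (m + 1),
      ((range fun h : GK (Ex n (f m)) => h * g i * h⁻¹) ∪
        (range fun h : GK (Ex n (f m)) => h * (g i)⁻¹ * h⁻¹)),
      AnalyticSet.iUnion fun i => ana_union (analyticSet_range_of_polishSpace (by fun_prop))
        (analyticSet_range_of_polishSpace (by fun_prop)), ?_⟩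
    ext φ
    constructor
    · rintro ⟨h, hh, x, ⟨i, hi, rfl | rfl⟩, rfl⟩
      · obtain ⟨h', rfl⟩ := In_lift (Ex_InB (f m)) hh
        refine ⟨h' * g ⟨i, by omega⟩ * h'⁻¹, mem_iUnion.2 ⟨⟨i, by omega⟩, Or.inl ⟨h', rfl⟩⟩, ?_⟩
        rw [map_mul, map_mul, map_inv, hg]
      · obtain ⟨h', rfl⟩ := In_lift (Ex_InB (f m)) hh
        refine ⟨h' * (g ⟨i, by omega⟩)⁻¹ * h'⁻¹, mem_iUnion.2 ⟨⟨i, by omega⟩, Or.inr ⟨h', rfl⟩⟩, ?_⟩
        rw [map_mul, map_mul, map_inv, map_inv, hg]
    · rintro ⟨y, hy, rfl⟩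
      obtain ⟨i, hi⟩ := mem_iUnion.1 hy
      rcases hi with ⟨h, rfl⟩ | ⟨h, rfl⟩
      · refine ⟨_, toH_In (Ex_InB _) h, a i, ⟨i, by omega, Or.inl rfl⟩, ?_⟩
        simp only [map_mul, map_inv, hg]
      · refine ⟨_, toH_In (Ex_InB _) h, (a i)⁻¹, ⟨i, by omega, Or.inr rfl⟩, ?_⟩
        simp only [map_mul, map_inv, hg]
  · rintro m _ ⟨h, hh, x, ⟨i, hi, hx⟩, rfl⟩
    refine ⟨h, hh, x⁻¹, ⟨i, hi, ?_⟩, by group⟩
    rcases hx with rfl | rfl
    · right; rfl
    · left; exact inv_inv (a i)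
  · rintro _ ⟨h, -, x, ⟨i, -, hx⟩, rfl⟩
    have h1 : a i ∈ Subgroup.normalClosure (range a) := Subgroup.subset_normalClosure ⟨i, rfl⟩
    have h2 : x ∈ Subgroup.normalClosure (range a) := by
      rcases hx with rfl | rfl
      · exact h1
      · exact Subgroup.inv_mem _ h1
    exact Subgroup.normalClosure_normal.conj_mem x h2 h
  · show Subgroup.closure (Group.conjugatesOfSet (range a)) ≤ _
    rw [Subgroup.closure_le]
    intro x hx
    obtain ⟨_, ⟨i, rfl⟩, hax⟩ := Group.mem_conjugatesOfSet_iff.1 hx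
    obtain ⟨c, hc⟩ := isConj_iff.1 hax
    obtain ⟨k, hk⟩ := exists_In c
    apply Subgroup.subset_closure
    refine mem_iUnion.2 ⟨k + i, c, In_mono (Ex_mono ?_) hk, a i,
      ⟨i, Nat.le_add_left i k, Or.inl rfl⟩, hc.symm⟩
    show k ≤ (k + i) + _
    omega

/-- an enumeration -/
theorem enum {A : Set (HamBar n)} (hA : A.Countable) : ∃ a : ℕ → HamBar n, range a = insert 1 A := by
  obtain ⟨a, ha⟩ := (hA.insert 1).exists_eq_range ⟨1, mem_insert 1 A⟩
  exact ⟨a, ha.symm⟩

theorem normalClosure_insert_one {G : Type*} [Group G] (A : Set G) :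
    Subgroup.normalClosure (insert 1 A) = Subgroup.normalClosure A := by
  apply le_antisymm
  · apply Subgroup.normalClosure_le_normal
    rintro x (rfl | hx)
    · exact Subgroup.one_mem _
    · exact Subgroup.subset_normalClosure hx
  · exact Subgroup.normalClosure_mono (subset_insert 1 A)

/-- the conjugates of the elements of a finite set and of their inverses -/
def Pm {G : Type*} [Group G] (F : Set G) : Set G := {x | x ∈ F ∨ x⁻¹ ∈ F}

theorem Fs_sub {A : Set (HamBar n)} {a : ℕ → HamBar n} (ha : range a = insert 1 A) (m : ℕ) :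
    ∃ F : Set (HamBar n), F ⊆ A ∧ F.Finite ∧ ∀ K : Compacts (E n),
      ConjIn (K : Set (E n)) (Fs a m) ⊆ Prods (ConjIn (K : Set (E n)) (Pm F)) 1 := by
  refine ⟨(a '' Iic m) ∩ A, inter_subset_right, ((finite_Iic m).image a).inter_of_left A,
    fun K => ?_⟩
  rintro _ ⟨h, hh, x, ⟨i, hi, hx⟩, rfl⟩
  have h1 : a i ∈ insert 1 A := by rw [← ha]; exact ⟨i, rfl⟩
  rcases h1 with h1 | h1
  · have h2 : x = 1 := by
      rcases hx with rfl | rfl
      · exact h1
      · rw [h1, inv_one]
    rw [h2]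
    have e : h * 1 * h⁻¹ = 1 := by group
    rw [e]
    exact LR.Prods.one 1
  · refine LR.Prods.single ⟨h, hh, x, ?_, rfl⟩
    have h2 : a i ∈ (a '' Iic m) ∩ A := ⟨⟨i, hi, rfl⟩, h1⟩
    rcases hx with rfl | rfl
    · exact Or.inl h2
    · right
      rw [inv_inv]
      exact h2

/-! ### abelianization -/

theorem abelianization_card {G : Type} [Group G] {A : Set G}
    (hA : Cardinal.mk A < Cardinal.continuum) (h : Subgroup.normalClosure A = ⊤) :
    Cardinal.mk (G ⧸ commutator G) < Cardinal.continuum := by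
  have hn : (Subgroup.closure A ⊔ commutator G).Normal := by
    refine ⟨fun x hx g => ?_⟩
    have h1 : ⁅g, x⁆ ∈ Subgroup.closure A ⊔ commutator G :=
      Subgroup.mem_sup_right (Subgroup.commutator_mem_commutator (Subgroup.mem_top _)
        (Subgroup.mem_top _))
    have h2 := Subgroup.mul_mem _ h1 hx
    rwa [commutatorElement_def, inv_mul_cancel_right] at h2
  have h1 : Subgroup.normalClosure A ≤ Subgroup.closure A ⊔ commutator G :=
    Subgroup.normalClosure_le_normal fun x hx => Subgroup.mem_sup_left (Subgroup.subset_closure hx)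
  rw [h] at h1
  have h2 : Surjective fun w : FreeGroup A =>
      ((FreeGroup.lift (fun a : A => (a : G)) w : G) : G ⧸ commutator G) := by
    intro q
    obtain ⟨φ, rfl⟩ := QuotientGroup.mk_surjective q
    obtain ⟨y, hy, z, hz, rfl⟩ := Subgroup.mem_sup_of_normal_right.1 (h1 (Subgroup.mem_top φ))
    rw [FreeGroup.closure_eq_range] at hy
    obtain ⟨w, rfl⟩ := hy
    refine ⟨w, ?_⟩
    show ((FreeGroup.lift (fun a : A => (a : G)) w : G) : G ⧸ commutator G) = _
    rw [QuotientGroup.eq, inv_mul_cancel_left]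
    exact hz
  refine (Cardinal.mk_le_of_surjective h2).trans_lt ?_
  rcases isEmpty_or_nonempty A with he | hne
  · have : Subsingleton (FreeGroup A) := inferInstance
    exact (Cardinal.mk_le_aleph0 (α := FreeGroup A)).trans_lt Cardinal.aleph0_lt_continuum
  · rw [Cardinal.mk_freeGroup]
    exact max_lt hA Cardinal.aleph0_lt_continuum

end Pool.Agent.J6H85.ZO
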