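import Pool.Agent.Results.MP_68f289_gt.HomogeneousQuasimorphisms
import Pool.Agent.J6H85.LR.Gen
import Pool.Agent.J6H85.LR.Pub

/-!
# Baire category in the group of Hamiltonian homeomorphisms: definitions

`HamGroup n` is the group of the compactly supported Hamiltonian homeomorphisms of the open unit ball
of `ℝ^{2n}` (`Pool/Agent/Results/MP_68f289_gt/HomogeneousQuasimorphisms.lean`, the same as in the
frozen statement S13311), `φ.map` is the homeomorphism `φ` as a map. `Prods X k` (the products of at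
most `k` elements of `X`): `Pool/Agent/J6H85/LR/Gen.lean`. `Sh n s` (the Hamiltonian homeomorphisms
of the concentric open ball of radius `s`): `Pool/Agent/J6H85/LR/Pub.lean`.
-/

set_option autoImplicit false

open Pool.Agent.Results.MP_68f289_gt.HomogeneousQuasimorphisms (E HamGroup ball FixesOff
  IsTimeOneMap ConvergesTo Homeo)
open Pool.Agent.J6H85.LR (Prods)
open scoped commutatorElement

namespace Pool.Agent.J6H85.Baire

variable {n : ℕ}

/-- `K` is a compact subset of the open unit ball -/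
def Inner (K : Set (E n)) : Prop := IsCompact K ∧ K ⊆ ball n

/-- the group `G_K` of the elements of `HamGroup n` which are supported in `K` and are uniform
limits of Hamiltonian diffeomorphisms supported in `K`, with the topology of uniform convergence -/
def GK (K : Set (E n)) : Set (HamGroup n) :=
  {φ | FixesOff K φ.1 ∧ ∃ u : ℕ → Homeo n, (∀ k, FixesOff K (u k)) ∧ (∀ k, IsTimeOneMap (u k)) ∧
    ConvergesTo u φ.1}

/-- the distances of `φ(x)` and `ψ(x)` are less than `ε` -/
def Close (ε : ℝ) (φ ψ : HamGroup n) : Prop := ∀ x, dist (φ.map x) (ψ.map x) < ε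

/-- `A ∩ G_K` is nowhere dense in `G_K` -/
def NowhereDense (K : Set (E n)) (A : Set (HamGroup n)) : Prop :=
  ∀ φ ∈ GK K, ∀ ε : ℝ, 0 < ε → ∃ ψ ∈ GK K, Close ε ψ φ ∧
    ∃ δ : ℝ, 0 < δ ∧ ∀ θ ∈ GK K, Close δ θ ψ → θ ∉ A

/-- `A ∩ G_K` is meagre in `G_K` -/
def Meagre (K : Set (E n)) (A : Set (HamGroup n)) : Prop :=
  ∃ C : ℕ → Set (HamGroup n), (∀ i, NowhereDense K (C i)) ∧ ∀ φ ∈ GK K, φ ∈ A → ∃ i, φ ∈ C i

/-- `U ∩ G_K` is open in `G_K` -/
def RelOpen (K : Set (E n)) (U : Set (HamGroup n)) : Prop :=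
  ∀ φ ∈ GK K, φ ∈ U → ∃ ε : ℝ, 0 < ε ∧ ∀ ψ ∈ GK K, Close ε ψ φ → ψ ∈ U

/-- `A ∩ G_K` has the Baire property in `G_K` -/
def BaireProperty (K : Set (E n)) (A : Set (HamGroup n)) : Prop :=
  ∃ U : Set (HamGroup n), RelOpen K U ∧ Meagre K (U \ A) ∧ Meagre K (A \ U)

/-- the elements of `G_K` at a distance less than `ε` from the identity -/
def SmallIn (K : Set (E n)) (ε : ℝ) : Set (HamGroup n) := {φ | φ ∈ GK K ∧ Close ε φ 1}

/-- the union of the cosets `c N`, `c ∈ C` -/
def Cosets (C : Set (HamGroup n)) (N : Subgroup (HamGroup n)) : Set (HamGroup n) :=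
  {φ | ∃ c ∈ C, c⁻¹ * φ ∈ N}

/-- the commutators of elements of `G_K` -/
def CommIn (K : Set (E n)) : Set (HamGroup n) := {φ | ∃ a ∈ GK K, ∃ b ∈ GK K, φ = ⁅a, b⁆}

/-- the conjugates of the elements of `X` by the elements of `G_K` -/
def ConjIn (K : Set (E n)) (X : Set (HamGroup n)) : Set (HamGroup n) :=
  {φ | ∃ h ∈ GK K, ∃ x ∈ X, φ = h * x * h⁻¹}

/-- **Zero-one law**: a subgroup `N ≠ HamGroup n` such that `N ∩ G_K` has the Baire property in
`G_K` for all `K` has index at least the continuum, and for all sufficiently large `K` every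
countable union of cosets of `N` meets `G_K` in a meagre set -/
def ZeroOneLaw (n : ℕ) : Prop :=
  ∀ N : Subgroup (HamGroup n), (∀ K, Inner K → BaireProperty K (N : Set (HamGroup n))) → N = ⊤ ∨
    (Cardinal.continuum ≤ Cardinal.mk (HamGroup n ⧸ N) ∧
    ∃ K₀, Inner K₀ ∧ ∀ K, Inner K → K₀ ⊆ K → ∀ C : Set (HamGroup n), C.Countable →
      Meagre K (Cosets C N))

/-- `N ∩ G_K` is not meagre in `G_K`, for every `K` -/
def Nonmeagre (N : Subgroup (HamGroup n)) : Prop :=
  ∀ K, Inner K → ¬ Meagre K (N : Set (HamGroup n))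

/-- for every `K` there are `K'`, `k`, `ε` such that the elements of `G_K` closer than `ε` to the
identity are products of at most `k` commutators of elements of `G_{K'}` -/
def LocallyUniformlyPerfect (n : ℕ) : Prop :=
  ∀ K : Set (E n), Inner K → ∃ K' : Set (E n), Inner K' ∧ ∃ (k : ℕ) (ε : ℝ), 0 < ε ∧
    SmallIn K ε ⊆ Prods (CommIn K') k

/-- for every `K` there are `K'`, `k`, `ε` such that the elements of `G_K` closer than `ε` to the
identity are products of at most `k` conjugates, by elements of `G_{K'}`, of elements of `X` -/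
def LocallyUniformlyGenerated (X : Set (HamGroup n)) : Prop :=
  ∀ K : Set (E n), Inner K → ∃ K' : Set (E n), Inner K' ∧ ∃ (k : ℕ) (ε : ℝ), 0 < ε ∧
    SmallIn K ε ⊆ Prods (ConjIn K' X) k

/-- for every `K` there are `K'`, `k`, `ε` and a finite subset `F` of `A` such that the elements of
`G_K` closer than `ε` to the identity are products of at most `k` conjugates, by elements of
`G_{K'}`, of elements of `F` and inverses of elements of `F` -/
def UniformlyNormallyGenerated (A : Set (HamGroup n)) : Prop :=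
  ∀ K : Set (E n), Inner K → ∃ K' : Set (E n), Inner K' ∧ ∃ F : Set (HamGroup n), F ⊆ A ∧
    F.Finite ∧ ∃ (k : ℕ) (ε : ℝ), 0 < ε ∧ SmallIn K ε ⊆ Prods (ConjIn K' {x | x ∈ F ∨ x⁻¹ ∈ F}) k

/-- for every `K` the function `ν` is bounded above on a neighbourhood of the identity in `G_K` -/
def LocallyBounded (ν : HamGroup n → ℝ) : Prop :=
  ∀ K : Set (E n), Inner K → ∃ ε C : ℝ, 0 < ε ∧ ∀ φ ∈ SmallIn K ε, ν φ ≤ C

end Pool.Agent.J6H85.Baire
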