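import Pool.Agent.J6H85.ZO.Main0
import Pool.Agent.J6H85.ZO.Pub

/-!
# The theorem
-/

set_option autoImplicit false

open Pool.Agent.Results.MP_68f289_gt.HomogeneousQuasimorphisms (E HamGroup ball FixesOff
  IsTimeOneMap ConvergesTo Homeo closure_eq timeOne_iff)
open Pool.Agent.J6H85.Frag (Sh)

namespace Pool.Agent.J6H85.Baire

variable {n : ℕ}

theorem mem_GK (K : Set (E n)) (φ : HamGroup n) :
    φ ∈ GK K ↔ (φ.1 : Homeo n) ∈ Pool.Agent.N235.DH.HK n K := by
  constructor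
  · rintro ⟨h1, u, h2, h3, h4⟩
    exact ⟨h1, u, h2, fun k => (timeOne_iff _).1 (h3 k), h4⟩
  · rintro ⟨h1, u, h2, h3, h4⟩
    exact ⟨h1, u, h2, fun k => (timeOne_iff _).2 (h3 k), h4⟩

theorem main (n : ℕ) (hn : 0 < n) :
    ZeroOneLaw n ∧
    List.TFAE [commutator (HamGroup n) = ⊤,
      Cardinal.mk (Abelianization (HamGroup n)) < Cardinal.continuum,
      Nonmeagre (commutator (HamGroup n)), LocallyUniformlyPerfect n] ∧
    (∀ A : Set (HamGroup n), A.Countable → List.TFAE [Subgroup.normalClosure A = ⊤,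
      Cardinal.mk (HamGroup n ⧸ Subgroup.normalClosure A) < Cardinal.continuum,
      Nonmeagre (Subgroup.normalClosure A), UniformlyNormallyGenerated A]) ∧
    (∀ s : ℝ, 0 < s → s ≤ 1 → List.TFAE [Subgroup.normalClosure (Sh n s) = ⊤,
      Cardinal.mk (HamGroup n ⧸ Subgroup.normalClosure (Sh n s)) < Cardinal.continuum,
      Nonmeagre (Subgroup.normalClosure (Sh n s)), LocallyUniformlyGenerated (Sh n s)]) ∧
    (∀ A : Set (HamGroup n), Cardinal.mk A < Cardinal.continuum →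
      Subgroup.normalClosure A = ⊤ → commutator (HamGroup n) = ⊤) ∧
    (∀ A : Set (HamGroup n), A.Countable → Subgroup.normalClosure A = ⊤ →
      ∀ ν : HamGroup n → ℝ, (∀ φ ψ, ν (φ * ψ) ≤ ν φ + ν ψ) →
        (∀ φ ψ, ν (ψ * φ * ψ⁻¹) = ν φ) → LocallyBounded ν) ∧
    (IsSimpleGroup (HamGroup n) ↔ commutator (HamGroup n) = ⊤ ∧
      ∀ s : ℝ, 0 < s → s ≤ 1 → Subgroup.normalClosure (Sh n s) = ⊤) :=
  Pool.Agent.J6H85.ZO.main_gen _ GK hn (closure_eq n) mem_GK

end Pool.Agent.J6H85.Baire
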