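import Mathlib

/-!
# A meagre subgroup of a Polish group has index at least the continuum (Mycielski)
-/

set_option autoImplicit false

open Set Filter Topology Function

namespace Pool.Agent.J6H85.ZO

section

variable {H : Type*} [Group H] [TopologicalSpace H] [IsTopologicalGroup H]

theorem pair_shrink {U V W : Set H} (hU : IsOpen U) (hUd : Dense U) (hV : IsOpen V)
    (hVn : V.Nonempty) (hW : IsOpen W) (hWn : W.Nonempty) :
    ∃ V' W' : Set H, IsOpen V' ∧ V'.Nonempty ∧ V' ⊆ V ∧ IsOpen W' ∧ W'.Nonempty ∧ W' ⊆ W ∧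
      ∀ v ∈ V', ∀ w ∈ W', v⁻¹ * w ∈ U := by
  obtain ⟨v, hv⟩ := hVn
  have h1 : ((fun x => v * x) ⁻¹' W).Nonempty := by
    obtain ⟨w, hw⟩ := hWn
    exact ⟨v⁻¹ * w, by simpa using hw⟩
  obtain ⟨u, hu1, hu2⟩ := hUd.inter_open_nonempty _ (hW.preimage (continuous_const_mul v)) h1
  have h2 : Continuous fun p : H × H => p.1⁻¹ * p.2 := by fun_prop
  have h3 : (v, v * u) ∈ (fun p : H × H => p.1⁻¹ * p.2) ⁻¹' U := by simpa using hu2
  obtain ⟨A, B, hA, hB, hvA, hwB, hAB⟩ := isOpen_prod_iff.1 (hU.preimage h2) v (v * u) h3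
  exact ⟨A ∩ V, B ∩ W, hA.inter hV, ⟨v, hvA, hv⟩, inter_subset_right, hB.inter hW,
    ⟨v * u, hwB, hu1⟩, inter_subset_right, fun a ha b hb => hAB (mk_mem_prod ha.1 hb.1)⟩

/-- open nonempty families -/
def Fa {ι : Type*} (V : ι → Set H) : Prop := ∀ i, IsOpen (V i) ∧ (V i).Nonempty

theorem family_shrink {ι : Type*} {U : Set H} (hU : IsOpen U) (hUd : Dense U) (V : ι → Set H)
    (hV : Fa V) (R : Finset (ι × ι)) (hR : ∀ p ∈ R, p.1 ≠ p.2) :
    ∃ V' : ι → Set H, Fa V' ∧ (∀ i, V' i ⊆ V i) ∧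
      ∀ p ∈ R, ∀ v ∈ V' p.1, ∀ w ∈ V' p.2, v⁻¹ * w ∈ U := by
  classical
  induction R using Finset.induction_on with
  | empty => exact ⟨V, hV, fun _ => subset_refl _, by simp⟩
  | insert p R _ ih =>
    obtain ⟨V₁, h1, h2, h3⟩ := ih fun q hq => hR q (Finset.mem_insert_of_mem hq)
    have hp : p.1 ≠ p.2 := hR p (Finset.mem_insert_self _ _)
    obtain ⟨A, B, hA, hAn, hAV, hB, hBn, hBV, hAB⟩ :=
      pair_shrink hU hUd (h1 p.1).1 (h1 p.1).2 (h1 p.2).1 (h1 p.2).2
    let V₂ : ι → Set H := Function.update (Function.update V₁ p.1 A) p.2 B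
    have e2 : V₂ p.2 = B := Function.update_self _ _ _
    have e1 : V₂ p.1 = A := by
      show Function.update (Function.update V₁ p.1 A) p.2 B p.1 = A
      rw [Function.update_of_ne hp, Function.update_self]
    have e0 : ∀ i, i ≠ p.1 → i ≠ p.2 → V₂ i = V₁ i := fun i hi1 hi2 => by
      show Function.update (Function.update V₁ p.1 A) p.2 B i = _
      rw [Function.update_of_ne hi2, Function.update_of_ne hi1]
    have hsub : ∀ i, V₂ i ⊆ V₁ i := by
      intro i
      by_cases hi2 : i = p.2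
      · subst hi2
        rw [e2]
        exact hBV
      · by_cases hi1 : i = p.1
        · subst hi1
          rw [e1]
          exact hAV
        · rw [e0 i hi1 hi2]
    refine ⟨V₂, fun i => ?_, fun i => (hsub i).trans (h2 i), fun q hq v hv w hw => ?_⟩
    · by_cases hi2 : i = p.2
      · subst hi2
        rw [e2]
        exact ⟨hB, hBn⟩
      · by_cases hi1 : i = p.1
        · subst hi1
          rw [e1]
          exact ⟨hA, hAn⟩
        · rw [e0 i hi1 hi2]
          exact h1 i
    · rcases Finset.mem_insert.1 hq with rfl | hq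
      · rw [e1] at hv
        rw [e2] at hw
        exact hAB v hv w hw
      · exact h3 q hq v (hsub _ hv) w (hsub _ hw)

end

/-- the initial segments of a sequence, reversed -/
def pre (a : ℕ → Bool) : ℕ → List Bool
  | 0 => []
  | m + 1 => a m :: pre a m

theorem pre_length (a : ℕ → Bool) (m : ℕ) : (pre a m).length = m := by
  induction m with
  | zero => rfl
  | succ m ih => rw [pre, List.length_cons, ih]

theorem pre_ne {a b : ℕ → Bool} {m : ℕ} (h : a m ≠ b m) (k : ℕ) :
    pre a (m + 1 + k) ≠ pre b (m + 1 + k) := by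
  induction k with
  | zero =>
    intro hc
    exact h (List.cons.inj hc).1
  | succ k ih =>
    intro hc
    exact ih (List.cons.inj hc).2

/-- **Mycielski's theorem for subgroups.** -/
theorem mycielski {H : Type*} [Group H] [TopologicalSpace H] [IsTopologicalGroup H]
    [TopologicalSpace.IsCompletelyMetrizableSpace H] {N : Set H} (hN : IsMeagre N) :
    ∃ f : (ℕ → Bool) → H, ∀ a b, a ≠ b → (f a)⁻¹ * f b ∉ N := by
  let _ := TopologicalSpace.upgradeIsCompletelyMetrizable H
  obtain ⟨t, htN, htG, htd⟩ := mem_residual.1 hN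
  obtain ⟨O, hO, rfl⟩ := isGδ_iff_eq_iInter_nat.1 htG
  let U : ℕ → Set H := fun m => ⋂ i ∈ Finset.range (m + 1), O i
  have hU : ∀ m, IsOpen (U m) := fun m => isOpen_biInter_finset fun i _ => hO i
  have hUd : ∀ m, Dense (U m) := fun m => htd.mono fun x hx =>
    mem_iInter₂.2 fun i _ => mem_iInter.1 hx i
  -- the step
  have hstep : ∀ (m : ℕ) (V : List Bool → Set H), Fa V → ∃ V' : List Bool → Set H, Fa V' ∧
      (∀ b s, closure (V' (b :: s)) ⊆ V s) ∧
      (∀ s, ∀ x ∈ V' s, ∀ y ∈ V' s, dist x y ≤ (1 / 2) ^ m) ∧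
      ∀ s s', s.length = m + 1 → s'.length = m + 1 → s ≠ s' → ∀ v ∈ V' s, ∀ w ∈ V' s',
        v⁻¹ * w ∈ U m := by
    intro m V hV
    have hfin : {s : List Bool | s.length = m + 1}.Finite := List.finite_length_eq Bool (m + 1)
    classical
    let R : Finset (List Bool × List Bool) :=
      (hfin.toFinset ×ˢ hfin.toFinset).filter fun p => p.1 ≠ p.2
    obtain ⟨V₁, h1, h2, h3⟩ := family_shrink (hU m) (hUd m) (fun s : List Bool => V s.tail)
      (fun s => hV _) R fun p hp => (Finset.mem_filter.1 hp).2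
    have h4 : ∀ s, ∃ (x : H) (r : ℝ), 0 < r ∧ r ≤ (1 / 2) ^ (m + 1) ∧
        Metric.closedBall x r ⊆ V₁ s := by
      intro s
      obtain ⟨x, hx⟩ := (h1 s).2
      obtain ⟨r, hr, hr2⟩ := Metric.isOpen_iff.1 (h1 s).1 x hx
      refine ⟨x, min (r / 2) ((1 / 2) ^ (m + 1)), lt_min (by positivity) (by positivity),
        min_le_right _ _, fun y hy => hr2 ?_⟩
      have h5 := Metric.mem_closedBall.1 hy
      have h6 := min_le_left (r / 2) ((1 / 2 : ℝ) ^ (m + 1))
      rw [Metric.mem_ball]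
      linarith
    choose x r hr1 hr2 hr3 using h4
    refine ⟨fun s => Metric.ball (x s) (r s), fun s => ⟨Metric.isOpen_ball,
      ⟨x s, Metric.mem_ball_self (hr1 s)⟩⟩, fun b s => ?_, fun s y hy z hz => ?_,
      fun s s' hs hs' hss v hv w hw => ?_⟩
    · exact (Metric.closure_ball_subset_closedBall.trans (hr3 _)).trans (h2 (b :: s))
    · have h5 := Metric.mem_ball.1 hy
      have h6 := Metric.mem_ball'.1 hz
      have h7 := dist_triangle y (x s) z
      have h8 := hr2 s
      rw [pow_succ] at h8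
      linarith
    · refine h3 (s, s') ?_ v (hr3 s (Metric.ball_subset_closedBall hv)) w
        (hr3 s' (Metric.ball_subset_closedBall hw))
      rw [Finset.mem_filter, Finset.mem_product]
      exact ⟨⟨hfin.mem_toFinset.2 hs, hfin.mem_toFinset.2 hs'⟩, hss⟩
  choose nx hnx1 hnx2 hnx3 hnx4 using hstep
  let V : ∀ _ : ℕ, {V : List Bool → Set H // Fa V} := fun m =>
    Nat.rec ⟨fun _ => univ, fun _ => ⟨isOpen_univ, ⟨1, mem_univ _⟩⟩⟩
      (fun m V => ⟨nx m V.1 V.2, hnx1 m V.1 V.2⟩) m
  have hVs : ∀ m, (V (m + 1)).1 = nx m (V m).1 (V m).2 := fun m => rfl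
  have hlim : ∀ a : ℕ → Bool, ∃ x : H, ∀ m, x ∈ (V m).1 (pre a m) := by
    intro a
    choose y hy using fun m => ((V m).2 (pre a m)).2
    have hmono : ∀ m, (V (m + 1)).1 (pre a (m + 1)) ⊆ (V m).1 (pre a m) := by
      intro m
      rw [hVs]
      exact subset_closure.trans (hnx2 m _ (V m).2 (a m) (pre a m))
    have hanti : ∀ m k, (V (m + k)).1 (pre a (m + k)) ⊆ (V m).1 (pre a m) := by
      intro m k
      induction k with
      | zero => exact subset_refl _
      | succ k ih => exact (hmono (m + k)).trans ih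
    have hcau : CauchySeq fun m => y (m + 1) := by
      refine cauchySeq_of_le_geometric (1 / 2) 1 (by norm_num) fun m => ?_
      rw [one_mul]
      have h5 := hnx3 m _ (V m).2 (pre a (m + 1))
      rw [← hVs] at h5
      exact h5 _ (hy (m + 1)) _ (hmono (m + 1) (hy (m + 2)))
    obtain ⟨x, hx⟩ := cauchySeq_tendsto_of_complete hcau
    refine ⟨x, fun m => ?_⟩
    have h6 : x ∈ closure ((V (m + 1)).1 (pre a (m + 1))) := by
      refine mem_closure_of_tendsto hx ?_
      filter_upwards [eventually_ge_atTop m] with k hk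
      obtain ⟨j, rfl⟩ : ∃ j, k = m + j := ⟨k - m, by omega⟩
      have h7 := hanti (m + 1) j
      rw [show m + 1 + j = m + j + 1 by omega] at h7
      exact h7 (hy (m + j + 1))
    rw [hVs] at h6
    exact hnx2 m _ (V m).2 (a m) (pre a m) h6
  choose f hf using hlim
  refine ⟨f, fun a b hab hc => ?_⟩
  obtain ⟨m, hm⟩ := Function.ne_iff.1 hab
  have h8 : (f a)⁻¹ * f b ∈ ⋂ i, O i := by
    refine mem_iInter.2 fun i => ?_
    have h9 := hnx4 (m + i) _ (V (m + i)).2 (pre a (m + i + 1)) (pre b (m + i + 1))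
      (pre_length _ _) (pre_length _ _) (by
        have := pre_ne hm i
        rwa [show m + 1 + i = m + i + 1 by omega] at this) (f a) (by
        exact hf a (m + i + 1)) (f b) (hf b (m + i + 1))
    exact mem_iInter₂.1 h9 i (Finset.mem_range.2 (by omega))
  exact htN h8 hc

end Pool.Agent.J6H85.ZO
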