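import Mathlib

/-!
# Analytic sets have the property of Baire; the lemma of Pettis
-/

set_option autoImplicit false

open Set Filter Topology Function

namespace Pool.Agent.J6H85.ZO

section Nikodym

variable {X : Type*} [TopologicalSpace X]

/-- the points near which `A` is not meagre -/
def Dn (A : Set X) : Set X := {x | ∀ U ∈ 𝓝 x, ¬ IsMeagre (A ∩ U)}

theorem isClosed_Dn (A : Set X) : IsClosed (Dn A) := by
  rw [← isOpen_compl_iff, isOpen_iff_mem_nhds]
  intro x hx
  have hx' : ¬ ∀ U ∈ 𝓝 x, ¬ IsMeagre (A ∩ U) := hx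
  push Not at hx'
  obtain ⟨U, hU, hm⟩ := hx'
  obtain ⟨V, hVU, hV, hxV⟩ := mem_nhds_iff.1 hU
  refine mem_of_superset (hV.mem_nhds hxV) fun y hy hyD => ?_
  exact hyD V (hV.mem_nhds hy) (hm.mono (inter_subset_inter_right A hVU))

theorem Dn_sub_closure (A : Set X) : Dn A ⊆ closure A := by
  intro x hx
  rw [mem_closure_iff_nhds]
  intro U hU
  by_contra hc
  rw [not_nonempty_iff_eq_empty, inter_comm] at hc
  apply hx U hU
  rw [hc]
  exact IsMeagre.empty

theorem isMeagre_diff_Dn [SecondCountableTopology X] (A : Set X) : IsMeagre (A \ Dn A) := by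
  have hb := TopologicalSpace.isBasis_countableBasis X
  have hc := TopologicalSpace.countable_countableBasis X
  have h1 : A \ Dn A ⊆ ⋃ B ∈ {B ∈ TopologicalSpace.countableBasis X | IsMeagre (A ∩ B)}, A ∩ B := by
    rintro x ⟨hxA, hx⟩
    have hx' : ¬ ∀ U ∈ 𝓝 x, ¬ IsMeagre (A ∩ U) := hx
    push Not at hx'
    obtain ⟨U, hU, hm⟩ := hx'
    obtain ⟨B, hB, hxB, hBU⟩ := hb.mem_nhds_iff.1 hU
    rw [mem_iUnion₂]
    exact ⟨B, ⟨hB, hm.mono (inter_subset_inter_right A hBU)⟩, hxA, hxB⟩
  refine IsMeagre.mono h1 ?_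
  rw [biUnion_eq_iUnion]
  have : Countable {B ∈ TopologicalSpace.countableBasis X | IsMeagre (A ∩ B)} :=
    (hc.mono (sep_subset _ _)).to_subtype
  exact isMeagre_iUnion fun B => B.2.2

theorem meagre_of_eq {s u : Set X} (h : s =ᶠ[residual X] u) : IsMeagre (s \ u) := by
  have h1 : {x | s x = u x} ∈ residual X := h
  refine mem_of_superset h1 fun x hx => ?_
  rintro ⟨hs, hu⟩
  apply hu
  have h2 : s x = u x := hx
  show u x
  rw [← h2]
  exact hs

theorem eq_of_meagre {s u : Set X} (h1 : IsMeagre (s \ u)) (h2 : IsMeagre (u \ s)) :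
    s =ᶠ[residual X] u := by
  filter_upwards [show (s \ u)ᶜ ∈ residual X from h1, show (u \ s)ᶜ ∈ residual X from h2]
    with x h3 h4
  have h5 : x ∈ s ↔ x ∈ u := by
    constructor
    · intro h
      by_contra hc
      exact h3 ⟨h, hc⟩
    · intro h
      by_contra hc
      exact h4 ⟨h, hc⟩
  exact propext h5

theorem Dn_min {A C : Set X} (hC : BaireMeasurableSet C) (hAC : A ⊆ C) :
    IsMeagre (Dn A \ C) := by
  by_contra hne
  have hD : BaireMeasurableSet (Dn A) := (isClosed_Dn A).isOpen_compl.baireMeasurableSet.of_compl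
  obtain ⟨U, hU, hUe⟩ := (hD.diff hC).residualEq_isOpen
  have h1 : IsMeagre ((Dn A \ C) \ U) := meagre_of_eq hUe
  have h2 : IsMeagre (U \ (Dn A \ C)) := meagre_of_eq hUe.symm
  obtain ⟨x, hx⟩ : ((Dn A \ C) ∩ U).Nonempty := by
    by_contra hc
    rw [not_nonempty_iff_eq_empty] at hc
    apply hne
    refine IsMeagre.mono (fun x hx => ?_) h1
    refine ⟨hx, fun hxU => ?_⟩
    have : x ∈ (Dn A \ C) ∩ U := ⟨hx, hxU⟩
    rw [hc] at this
    exact this
  refine hx.1.1 U (hU.mem_nhds hx.2) (IsMeagre.mono ?_ h2)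
  rintro y ⟨hyA, hyU⟩
  exact ⟨hyU, fun h => h.2 (hAC hyA)⟩

/-- the sequences with a given reversed initial segment -/
def Cy : List ℕ → Set (ℕ → ℕ)
  | [] => univ
  | a :: s => Cy s ∩ {z | z s.length = a}

theorem Cy_eq (s : List ℕ) : Cy s = ⋃ a, Cy (a :: s) := by
  ext z
  rw [mem_iUnion]
  constructor
  · intro h
    exact ⟨z s.length, h, rfl⟩
  · rintro ⟨a, h⟩
    exact h.1

/-- **Analytic sets have the property of Baire.** -/
theorem range_baire [T2Space X] [SecondCountableTopology X] {f : (ℕ → ℕ) → X}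
    (hf : Continuous f) : BaireMeasurableSet (range f) := by
  set A : List ℕ → Set X := fun s => f '' Cy s with hA
  have hA0 : A [] = range f := image_univ
  have hAs : ∀ s, A s = ⋃ a, A (a :: s) := by
    intro s
    show f '' Cy s = _
    rw [Cy_eq, image_iUnion]
  -- the hulls
  set H : List ℕ → Set X := fun s => Dn (A s) ∪ (A s \ Dn (A s)) with hH
  have hHB : ∀ s, BaireMeasurableSet (H s) := fun s =>
    ((isClosed_Dn _).isOpen_compl.baireMeasurableSet.of_compl).union
      (isMeagre_diff_Dn _).baireMeasurableSet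
  have hAH : ∀ s, A s ⊆ H s := fun s x hx => by
    by_cases h : x ∈ Dn (A s)
    · exact Or.inl h
    · exact Or.inr ⟨hx, h⟩
  set M : Set X := (⋃ s : List ℕ, Dn (A s) \ ⋃ a, H (a :: s)) ∪ ⋃ s : List ℕ, A s \ Dn (A s)
    with hM
  have hMm : IsMeagre M := by
    refine IsMeagre.union (isMeagre_iUnion fun s => ?_) (isMeagre_iUnion fun s =>
      isMeagre_diff_Dn _)
    refine Dn_min (BaireMeasurableSet.iUnion fun a => hHB _) ?_
    rw [hAs]
    exact iUnion_mono fun a => hAH _
  have hstep : ∀ s, ∀ x ∈ Dn (A s), x ∉ M → ∃ a, x ∈ Dn (A (a :: s)) := by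
    intro s x hx hxM
    have h1 : x ∈ ⋃ a, H (a :: s) := by
      by_contra hc
      exact hxM (Or.inl (mem_iUnion.2 ⟨s, hx, hc⟩))
    obtain ⟨a, ha⟩ := mem_iUnion.1 h1
    rcases ha with ha | ha
    · exact ⟨a, ha⟩
    · exact absurd (Or.inr (mem_iUnion.2 ⟨a :: s, ha⟩)) hxM
  have hkey : Dn (A []) \ range f ⊆ M := by
    rintro x ⟨hx, hxf⟩
    by_contra hxM
    apply hxf
    choose! nx hnx using hstep
    let S : ℕ → List ℕ := fun k => Nat.rec [] (fun _ s => nx s x :: s) k
    have hS : ∀ k, S (k + 1) = nx (S k) x :: S k := fun k => rfl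
    have hSD : ∀ k, x ∈ Dn (A (S k)) := by
      intro k
      induction k with
      | zero => exact hx
      | succ k ih =>
        rw [hS]
        exact hnx _ x ih hxM
    have hlen : ∀ k, (S k).length = k := by
      intro k
      induction k with
      | zero => rfl
      | succ k ih => rw [hS, List.length_cons, ih]
    let y : ℕ → ℕ := fun k => nx (S k) x
    have hCy : ∀ k, Cy (S k) ⊆ {z | ∀ i < k, z i = y i} := by
      intro k
      induction k with
      | zero => intro z _ i hi; omega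
      | succ k ih =>
        intro z hz i hi
        rw [hS] at hz
        rcases Nat.lt_succ_iff_lt_or_eq.1 hi with h | h
        · exact ih hz.1 i h
        · subst h
          have h2 : z (S i).length = nx (S i) x := hz.2
          rwa [hlen] at h2
    refine ⟨y, ?_⟩
    by_contra hne
    obtain ⟨U, V, hU, hV, hyU, hxV, hUV⟩ := t2_separation hne
    have h3 : f ⁻¹' U ∈ 𝓝 y := hf.continuousAt.preimage_mem_nhds (hU.mem_nhds hyU)
    obtain ⟨k, hk⟩ : ∃ k, {z : ℕ → ℕ | ∀ i < k, z i = y i} ⊆ f ⁻¹' U := by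
      rw [nhds_pi, Filter.mem_pi] at h3
      obtain ⟨I, hI, t, ht, hsub⟩ := h3
      obtain ⟨k, hk⟩ := hI.bddAbove
      refine ⟨k + 1, fun z hz => hsub fun i hi => ?_⟩
      rw [hz i (Nat.lt_succ_of_le (hk hi))]
      exact mem_of_mem_nhds (ht i)
    have h4 := Dn_sub_closure _ (hSD k)
    rw [mem_closure_iff_nhds] at h4
    obtain ⟨w, hw, z, hz, rfl⟩ := h4 V (hV.mem_nhds hxV)
    exact Set.disjoint_left.1 hUV (hk (hCy k hz)) hw
  have h5 : range f =ᶠ[residual X] Dn (A []) := by
    refine eq_of_meagre ?_ (IsMeagre.mono hkey hMm)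
    rw [← hA0]
    exact isMeagre_diff_Dn _
  exact BaireMeasurableSet.congr ((isClosed_Dn _).isOpen_compl.baireMeasurableSet.of_compl)
    h5.symm

theorem analytic_baire [T2Space X] [SecondCountableTopology X] {s : Set X}
    (hs : MeasureTheory.AnalyticSet s) : BaireMeasurableSet s := by
  rw [MeasureTheory.AnalyticSet] at hs
  rcases hs with rfl | ⟨f, hf, rfl⟩
  · exact IsMeagre.empty.baireMeasurableSet
  · exact range_baire hf

end Nikodym

section Pettis

variable {G : Type*} [Group G] [TopologicalSpace G] [IsTopologicalGroup G] [BaireSpace G]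

theorem isMeagre_smul {A : Set G} (hA : IsMeagre A) (g : G) : IsMeagre ((fun x => g * x) ⁻¹' A) :=
  hA.preimage_of_isOpenMap (continuous_const_mul g) (isOpenMap_mul_left g)

/-- **Lemma of Pettis.** -/
theorem pettis {A : Set G} (hA : BaireMeasurableSet A) (hne : ¬ IsMeagre A) :
    ∃ V ∈ 𝓝 (1 : G), ∀ g ∈ V, ∃ a ∈ A, ∃ b ∈ A, g = a * b⁻¹ := by
  obtain ⟨U, hU, hUe⟩ := hA.residualEq_isOpen
  have h1 : IsMeagre (A \ U) := meagre_of_eq hUe
  have h2 : IsMeagre (U \ A) := meagre_of_eq hUe.symm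
  obtain ⟨u, hu⟩ : U.Nonempty := by
    by_contra hc
    rw [not_nonempty_iff_eq_empty] at hc
    rw [hc, diff_empty] at h1
    exact hne h1
  refine ⟨{g | g⁻¹ * u ∈ U}, ?_, fun g hg => ?_⟩
  · have h3 : Continuous fun g : G => g⁻¹ * u := by fun_prop
    exact (hU.preimage h3).mem_nhds (by simpa using hu)
  · -- `U ∩ g U` is nonempty and open
    set O : Set G := {x | x ∈ U ∧ g * x ∈ U} with hO
    have hO1 : IsOpen O := hU.inter (hU.preimage (continuous_const_mul g))
    have hO2 : O.Nonempty := ⟨g⁻¹ * u, hg, by simpa using hu⟩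
    have h3 : IsMeagre (O \ {x | x ∈ A ∧ g * x ∈ A}) := by
      refine IsMeagre.mono ?_ (h2.union (isMeagre_smul h2 g))
      rintro x ⟨⟨hx1, hx2⟩, hx3⟩
      by_cases hx : x ∈ A
      · right
        exact ⟨hx2, fun h => hx3 ⟨hx, h⟩⟩
      · left
        exact ⟨hx1, hx⟩
    obtain ⟨x, hx⟩ : {x | x ∈ A ∧ g * x ∈ A}.Nonempty := by
      by_contra hc
      rw [not_nonempty_iff_eq_empty] at hc
      rw [hc, diff_empty] at h3
      exact not_isMeagre_of_isOpen hO1 hO2 h3
    exact ⟨g * x, hx.2, x, hx.1, by group⟩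

end Pettis

end Pool.Agent.J6H85.ZO
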