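import Pool.Agent.J6H85.ZO.Cases
import Pool.Agent.J6H85.ZO.Myc
import Pool.Agent.J6H85.LR.Par

/-!
# The theorem for any subgroup
-/

set_option autoImplicit false

open Set Filter Topology Function TopologicalSpace MeasureTheory
open Pool.Agent.Y453.HB
open Pool.Agent.Y309.HB
open Pool.Agent.N235.DH
open Pool.Agent.J6H85.LR (Prods Conj Comm sc cpy cpy_mem sc_coe mem_Sh)
open scoped commutatorElement

namespace Pool.Agent.J6H85.ZO.Par

variable {n : ℕ} (Γ : Subgroup (E n ≃ₜ E n)) (G : Set (E n) → Set Γ)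

def Close {Γ : Subgroup (E n ≃ₜ E n)} (ε : ℝ) (φ ψ : Γ) : Prop :=
  ∀ x, dist ((φ : E n ≃ₜ E n) x) ((ψ : E n ≃ₜ E n) x) < ε

def Inner (K : Set (E n)) : Prop := IsCompact K ∧ K ⊆ {p : E n | Q p < 1}

variable {Γ}

def NowhereDense (K : Set (E n)) (A : Set Γ) : Prop :=
  ∀ φ ∈ G K, ∀ ε : ℝ, 0 < ε → ∃ ψ ∈ G K, Close ε ψ φ ∧
    ∃ δ : ℝ, 0 < δ ∧ ∀ θ ∈ G K, Close δ θ ψ → θ ∉ A

def Meagre (K : Set (E n)) (A : Set Γ) : Prop :=
  ∃ C : ℕ → Set Γ, (∀ i, NowhereDense G K (C i)) ∧ ∀ φ ∈ G K, φ ∈ A → ∃ i, φ ∈ C i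

def RelOpen (K : Set (E n)) (U : Set Γ) : Prop :=
  ∀ φ ∈ G K, φ ∈ U → ∃ ε : ℝ, 0 < ε ∧ ∀ ψ ∈ G K, Close ε ψ φ → ψ ∈ U

def BaireProperty (K : Set (E n)) (A : Set Γ) : Prop :=
  ∃ U : Set Γ, RelOpen G K U ∧ Meagre G K (U \ A) ∧ Meagre G K (A \ U)

def SmallIn (K : Set (E n)) (ε : ℝ) : Set Γ := {φ | φ ∈ G K ∧ Close ε φ 1}

def Cosets (C : Set Γ) (N : Subgroup Γ) : Set Γ := {φ | ∃ c ∈ C, c⁻¹ * φ ∈ N}

def CommIn (K : Set (E n)) : Set Γ := {φ | ∃ a ∈ G K, ∃ b ∈ G K, φ = ⁅a, b⁆}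

def ConjIn (K : Set (E n)) (X : Set Γ) : Set Γ := {φ | ∃ h ∈ G K, ∃ x ∈ X, φ = h * x * h⁻¹}

def ZeroOneLaw : Prop :=
  ∀ N : Subgroup Γ, (∀ K, Inner K → BaireProperty G K N) → N = ⊤ ∨
    (Cardinal.continuum ≤ Cardinal.mk (Γ ⧸ N) ∧
    ∃ K₀, Inner K₀ ∧ ∀ K, Inner K → K₀ ⊆ K → ∀ C : Set Γ, C.Countable →
      Meagre G K (Cosets C N))

def Nonmeagre (N : Subgroup Γ) : Prop := ∀ K, Inner K → ¬ Meagre G K (N : Set Γ)

def LocallyUniformlyPerfect : Prop :=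
  ∀ K, Inner K → ∃ K', Inner K' ∧ ∃ (k : ℕ) (ε : ℝ), 0 < ε ∧
    SmallIn G K ε ⊆ Prods (CommIn G K') k

def LocallyUniformlyGenerated (X : Set Γ) : Prop :=
  ∀ K, Inner K → ∃ K', Inner K' ∧ ∃ (k : ℕ) (ε : ℝ), 0 < ε ∧
    SmallIn G K ε ⊆ Prods (ConjIn G K' X) k

end Pool.Agent.J6H85.ZO.Par

namespace Pool.Agent.J6H85.ZO

variable {n : ℕ}

open Par (Close Inner NowhereDense Meagre RelOpen BaireProperty SmallIn Cosets ZeroOneLaw
  Nonmeagre LocallyUniformlyPerfect LocallyUniformlyGenerated)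

/-! ### the translation -/

theorem nhds_ball {K : Compacts (E n)} {φ : GK K} {V : Set (GK K)} (hV : V ∈ 𝓝 φ) :
    ∃ ε > 0, ∀ ψ : GK K, (∀ x, dist ((ψ : E n ≃ₜ E n) x) ((φ : E n ≃ₜ E n) x) < ε) → ψ ∈ V := by
  by_contra hc
  push Not at hc
  choose u hu1 hu2 using fun k : ℕ => hc (1 / ((k : ℝ) + 1)) (by positivity)
  have h1 : Tendsto u atTop (𝓝 φ) := by
    rw [tendsto_iff]
    refine uconv_of uc K.isCompact φ.2.1 ?_
    rw [Metric.tendstoUniformly_iff]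
    intro ε hε
    filter_upwards [(tendsto_one_div_add_atTop_nhds_zero_nat (𝕜 := ℝ)).eventually
      (gt_mem_nhds hε)] with k hk x
    rw [dist_comm]
    exact (hu1 k x).trans hk
  obtain ⟨k, hk⟩ := (h1.eventually hV).exists
  exact hu2 k hk

theorem nowhereDense_iff {K : Compacts (E n)} (hK : InB K) (A : Set (HamBar n)) :
    NowhereDense In (K : Set (E n)) A ↔ IsNowhereDense (toH hK ⁻¹' A) := by
  constructor
  · intro h
    rw [IsNowhereDense]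
    by_contra hc
    obtain ⟨φ, hφ⟩ := nonempty_iff_ne_empty.2 hc
    obtain ⟨ε, hε, h1⟩ := nhds_ball (mem_interior_iff_mem_nhds.1 hφ)
    obtain ⟨ψ, hψ, h2, δ, hδ, h3⟩ := h (toH hK φ) (toH_In hK φ) ε hε
    have h4 : (⟨ψ, hψ⟩ : GK K) ∈ closure (toH hK ⁻¹' A) := h1 ⟨ψ, hψ⟩ h2
    obtain ⟨θ, hθ1, hθ2⟩ := mem_closure_iff_nhds.1 h4 _ (ball_nhds (⟨ψ, hψ⟩ : GK K) hδ)
    exact h3 (toH hK θ) (toH_In hK θ) hθ1 hθ2
  · intro h φ hφ ε hε
    obtain ⟨φ, rfl⟩ := In_lift hK hφ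
    obtain ⟨U, hU1, hU2, hU3⟩ := mem_nhds_iff.1 (ball_nhds φ hε)
    have h1 : ¬ U ⊆ closure (toH hK ⁻¹' A) := by
      intro hc
      have h2 : φ ∈ interior (closure (toH hK ⁻¹' A)) := interior_maximal hc hU2 hU3
      rw [h] at h2
      exact h2
    obtain ⟨ψ, hψ1, hψ2⟩ := not_subset.1 h1
    obtain ⟨δ, hδ, h3⟩ := nhds_ball (isClosed_closure.isOpen_compl.mem_nhds hψ2)
    refine ⟨toH hK ψ, toH_In hK ψ, hU1 hψ1, δ, hδ, fun θ hθ hθ2 hθA => ?_⟩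
    obtain ⟨θ, rfl⟩ := In_lift hK hθ
    exact h3 θ hθ2 (subset_closure hθA)

theorem meagre_iff {K : Compacts (E n)} (hK : InB K) (A : Set (HamBar n)) :
    Meagre In (K : Set (E n)) A ↔ IsMeagre (toH hK ⁻¹' A) := by
  rw [isMeagre_iff_countable_union_isNowhereDense]
  constructor
  · rintro ⟨C, h1, h2⟩
    refine ⟨range fun i => toH hK ⁻¹' (C i), ?_, countable_range _, ?_⟩
    · rintro _ ⟨i, rfl⟩
      exact (nowhereDense_iff hK _).1 (h1 i)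
    · intro φ hφ
      obtain ⟨i, hi⟩ := h2 _ (toH_In hK φ) hφ
      exact mem_sUnion.2 ⟨_, ⟨i, rfl⟩, hi⟩
  · rintro ⟨S, h1, h2, h3⟩
    have h4 : ∀ t ∈ S, NowhereDense In (K : Set (E n)) (toH hK '' t) := by
      intro t ht
      rw [nowhereDense_iff hK, preimage_image_eq _ (toH_inj hK)]
      exact h1 t ht
    rcases S.eq_empty_or_nonempty with rfl | hne
    · refine ⟨fun _ => ∅, fun i => ?_, fun φ hφ hφA => ?_⟩
      · rw [nowhereDense_iff hK, preimage_empty]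
        exact isNowhereDense_empty
      · obtain ⟨φ, rfl⟩ := In_lift hK hφ
        have h5 := h3 (show φ ∈ toH hK ⁻¹' A from hφA)
        rw [sUnion_empty] at h5
        exact absurd h5 (notMem_empty φ)
    · obtain ⟨f, hf⟩ := h2.exists_eq_range hne
      refine ⟨fun i => toH hK '' (f i), fun i => h4 _ (by rw [hf]; exact ⟨i, rfl⟩),
        fun φ hφ hφA => ?_⟩
      obtain ⟨φ, rfl⟩ := In_lift hK hφ
      obtain ⟨t, ht, hφt⟩ := mem_sUnion.1 (h3 (show φ ∈ toH hK ⁻¹' A from hφA))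
      rw [hf] at ht
      obtain ⟨i, rfl⟩ := ht
      exact ⟨i, φ, hφt, rfl⟩

theorem bp {K : Compacts (E n)} (hK : InB K) {A : Set (HamBar n)}
    (h : BaireProperty In (K : Set (E n)) A) : BaireMeasurableSet (toH hK ⁻¹' A) := by
  obtain ⟨U, h1, h2, h3⟩ := h
  have hU : IsOpen (toH hK ⁻¹' U) := by
    rw [isOpen_iff_mem_nhds]
    intro φ hφ
    obtain ⟨ε, hε, h4⟩ := h1 _ (toH_In hK φ) hφ
    exact mem_of_superset (ball_nhds φ hε) fun ψ hψ => h4 _ (toH_In hK ψ) hψ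
  refine hU.baireMeasurableSet.congr ?_
  exact eq_of_meagre ((meagre_iff hK _).1 h2) ((meagre_iff hK _).1 h3)

/-- a subgroup with the Baire property is meagre or contains a neighbourhood of the identity -/
theorem bp_ball {N : Subgroup (HamBar n)} {K : Compacts (E n)} (hK : InB K)
    (h : BaireMeasurableSet (toH hK ⁻¹' (N : Set (HamBar n))))
    (hm : ¬ IsMeagre (toH hK ⁻¹' (N : Set (HamBar n)))) : ∃ ε : ℝ, 0 < ε ∧ Ba (K : Set (E n)) ε ⊆ N := by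
  obtain ⟨V, hV, hV2⟩ := pettis h hm
  obtain ⟨ε, hε, hε2⟩ := nhds_one_ball hV
  refine ⟨ε, hε, fun φ hφ => ?_⟩
  obtain ⟨a, ha, b, hb, hab⟩ := hV2 ⟨φ, hφ.1⟩ (hε2 ⟨φ, hφ.1⟩ hφ.2)
  have e : φ = toH hK a * (toH hK b)⁻¹ := by
    rw [← map_inv, ← map_mul, ← hab]
    rfl
  rw [e]
  exact N.mul_mem ha (N.inv_mem hb)

theorem card_of_meagre {N : Subgroup (HamBar n)} {K : Compacts (E n)} (hK : InB K)
    (hm : IsMeagre (toH hK ⁻¹' (N : Set (HamBar n)))) :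
    Cardinal.continuum ≤ Cardinal.mk (HamBar n ⧸ N) := by
  obtain ⟨f, hf⟩ := mycielski hm
  have h1 : Injective fun a : ℕ → Bool => ((toH hK (f a) : HamBar n) : HamBar n ⧸ N) := by
    intro a b hab
    by_contra hne
    have h2 : ((toH hK (f a) : HamBar n) : HamBar n ⧸ N) = (toH hK (f b) : HamBar n) := hab
    rw [QuotientGroup.eq, ← map_inv, ← map_mul] at h2
    exact hf a b hne h2
  have h2 := Cardinal.mk_le_of_injective h1
  have h3 : Cardinal.mk (ℕ → Bool) = Cardinal.continuum := by simp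
  rwa [h3] at h2

theorem zero_one : ZeroOneLaw (n := n) In := by
  intro N hN
  by_cases hc : ∀ K : Set (E n), IsCompact K → K ⊆ {p : E n | Q p < 1} →
    ∃ ε : ℝ, 0 < ε ∧ Ba K ε ⊆ N
  · exact Or.inl (open_top hc)
  · right
    push Not at hc
    obtain ⟨K₀, hK₀, hKQ₀, h0⟩ := hc
    have key : ∀ K (hK : Inner K), K₀ ⊆ K →
        IsMeagre (toH (K := ⟨K, hK.1⟩) hK.2 ⁻¹' (N : Set (HamBar n))) := by
      intro K hK hKK
      by_contra hm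
      obtain ⟨ε, hε, h1⟩ := bp_ball (K := ⟨K, hK.1⟩) hK.2 (bp _ (hN K hK)) hm
      exact h0 ε hε fun φ hφ => h1 ⟨HK_mono hKK hφ.1, hφ.2⟩
    refine ⟨card_of_meagre _ (key K₀ ⟨hK₀, hKQ₀⟩ subset_rfl), K₀, ⟨hK₀, hKQ₀⟩,
      fun K hK hKK C hC => (meagre_iff (K := ⟨K, hK.1⟩) hK.2 _).2
        (coset_nonmeagre hC _ (key K hK hKK))⟩

theorem nonmeagre_iff {N : Subgroup (HamBar n)} : Nonmeagre In N ↔
    ∀ (K : Compacts (E n)) (hK : InB K), ¬ IsMeagre (toH hK ⁻¹' (N : Set (HamBar n))) := by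
  constructor
  · intro h K hK
    rw [← meagre_iff hK]
    exact h K ⟨K.isCompact, hK⟩
  · intro h K hK hm
    exact h ⟨K, hK.1⟩ hK.2 ((meagre_iff (K := ⟨K, hK.1⟩) hK.2 _).1 hm)

theorem SmallIn_eq (K : Set (E n)) (ε : ℝ) : SmallIn (Γ := HamBar n) In K ε = Ba K ε := rfl

theorem nonmeagre_top : Nonmeagre In (⊤ : Subgroup (HamBar n)) := by
  rw [nonmeagre_iff]
  exact fun K hK => toH_nonmeagre hK one_pos fun _ _ => Subgroup.mem_top _

theorem Tame.nonmeagre {X : ℕ → Set (HamBar n)} {N : Subgroup (HamBar n)} (h : Tame X N) :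
    N = ⊤ ↔ Nonmeagre In N :=
  ⟨fun h => by rw [h]; exact nonmeagre_top, fun h1 => h.top (nonmeagre_iff.1 h1)⟩

theorem Tame.card {X : ℕ → Set (HamBar n)} {N : Subgroup (HamBar n)} (h : Tame X N) :
    N = ⊤ ↔ Cardinal.mk (HamBar n ⧸ N) < Cardinal.continuum := by
  constructor
  · rintro rfl
    have := QuotientGroup.subsingleton_quotient_top (G := HamBar n)
    exact (Cardinal.mk_le_aleph0 (α := HamBar n ⧸ (⊤ : Subgroup (HamBar n)))).trans_lt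
      Cardinal.aleph0_lt_continuum
  · intro hc
    by_contra hN
    obtain ⟨K₀, hK₀, h1⟩ := h.meagre hN
    exact absurd (card_of_meagre hK₀ (h1 K₀ hK₀ le_rfl)) (not_le.2 hc)

end Pool.Agent.J6H85.ZO
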