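import Pool.Agent.N235.DH.Key

/-!
# The group of the Hamiltonian homeomorphisms supported in a compact set is a Polish group
-/

set_option autoImplicit false

open Set Filter Topology Function TopologicalSpace
open Pool.Agent.Y453.HB
open Pool.Agent.Y309.HB
open Pool.Agent.N235.DH

namespace Pool.Agent.J6H85.ZO

variable {n : ℕ}

/-- the group of the limits of Hamiltonian diffeomorphisms supported in `K` -/
def GK (K : Compacts (E n)) : Subgroup (E n ≃ₜ E n) where
  carrier := HK n K
  mul_mem' := fun h h' => HK_mul K.isCompact h h'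
  one_mem' := HK_one _
  inv_mem' := fun h => HK_inv K.isCompact h

theorem mem_GK {K : Compacts (E n)} {φ : E n ≃ₜ E n} : φ ∈ GK K ↔ φ ∈ HK n K := Iff.rfl

theorem HK_mono {K L : Set (E n)} (h : K ⊆ L) : HK n K ⊆ HK n L := by
  rintro φ ⟨h1, u, h2, h3, h4⟩
  exact ⟨fun x hx => h1 x fun hx' => hx (h hx'), u, fun k x hx => h2 k x fun hx' => hx (h hx'),
    h3, h4⟩

theorem GK_mono {K L : Compacts (E n)} (h : K ≤ L) : GK K ≤ GK L := HK_mono h

/-- the embedding in the space of pairs of continuous maps -/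
def emb (K : Compacts (E n)) (φ : GK K) : C(K, E n) × C(K, E n) :=
  (⟨fun x => (φ : E n ≃ₜ E n) x, (φ : E n ≃ₜ E n).continuous.comp continuous_subtype_val⟩,
   ⟨fun x => (φ : E n ≃ₜ E n)⁻¹ x, ((φ : E n ≃ₜ E n)⁻¹).continuous.comp continuous_subtype_val⟩)

theorem emb_inj (K : Compacts (E n)) : Injective (emb K) := by
  intro φ ψ h
  apply Subtype.ext
  apply Homeomorph.ext
  intro x
  by_cases hx : x ∈ (K : Set (E n))
  · exact congrArg (fun f : C(K, E n) × C(K, E n) => f.1 ⟨x, hx⟩) h
  · rw [φ.2.1 x hx, ψ.2.1 x hx]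

instance (K : Compacts (E n)) : TopologicalSpace (GK K) := TopologicalSpace.induced (emb K) inferInstance

theorem emb_embedding (K : Compacts (E n)) : IsEmbedding (emb K) := ⟨⟨rfl⟩, emb_inj K⟩

/-- uniform convergence on `K` of maps with support in `K` -/
theorem unif_of_K {K : Set (E n)} {f : ℕ → E n → E n} {F : E n → E n}
    (hf : ∀ k, ∀ x, x ∉ K → f k x = x) (hF : ∀ x, x ∉ K → F x = x)
    (h : ∀ ε > 0, ∀ᶠ k in atTop, ∀ x ∈ K, dist (F x) (f k x) < ε) :
    TendstoUniformly f F atTop := by
  rw [Metric.tendstoUniformly_iff]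
  intro ε hε
  filter_upwards [h ε hε] with k hk x
  by_cases hx : x ∈ K
  · exact hk x hx
  · rw [hf k x hx, hF x hx, dist_self]
    exact hε

theorem supp_inv {K : Set (E n)} {φ : E n ≃ₜ E n} (h : ∀ x, x ∉ K → φ x = x) :
    ∀ x, x ∉ K → φ⁻¹ x = x := by
  intro x hx
  have h1 := inv_apply_self φ x
  rwa [h x hx] at h1

theorem tendsto_iff {K : Compacts (E n)} {u : ℕ → GK K} {φ : GK K} :
    Tendsto u atTop (𝓝 φ) ↔ UConv (fun k => (u k : E n ≃ₜ E n)) φ := by
  rw [(emb_embedding K).tendsto_nhds_iff, Prod.tendsto_iff,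
    ContinuousMap.tendsto_iff_tendstoUniformly, ContinuousMap.tendsto_iff_tendstoUniformly,
    Metric.tendstoUniformly_iff, Metric.tendstoUniformly_iff]
  constructor
  · rintro ⟨h1, -⟩
    refine uconv_of uc K.isCompact φ.2.1 (unif_of_K (fun k => (u k).2.1) φ.2.1 fun ε hε => ?_)
    filter_upwards [h1 ε hε] with k hk x hx
    exact hk ⟨x, hx⟩
  · intro h
    have h' := uc_inv h
    refine ⟨fun ε hε => ?_, fun ε hε => ?_⟩
    · filter_upwards [Metric.tendstoUniformly_iff.1 h.1 ε hε] with k hk x
      exact hk x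
    · filter_upwards [Metric.tendstoUniformly_iff.1 h'.1 ε hε] with k hk x
      exact hk x

instance (K : Compacts (E n)) : SecondCountableTopology (GK K) :=
  (emb_embedding K).isInducing.secondCountableTopology

instance (K : Compacts (E n)) : T2Space (GK K) := (emb_embedding K).t2Space

instance (K : Compacts (E n)) : IsTopologicalGroup (GK K) where
  continuous_mul := by
    rw [continuous_iff_seqContinuous]
    intro u a h
    have h1 := (continuous_fst.tendsto a).comp h
    have h2 := (continuous_snd.tendsto a).comp h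
    rw [Function.comp_def] at h1 h2
    have h3 := tendsto_iff.1 h1
    have h4 := tendsto_iff.1 h2
    rw [Function.comp_def, tendsto_iff]
    exact uc_mul h3 h4
  continuous_inv := by
    rw [continuous_iff_seqContinuous]
    intro u a h
    have h3 := tendsto_iff.1 h
    rw [Function.comp_def, tendsto_iff]
    exact uc_inv h3

/-- extension by the identity -/
noncomputable def ext (K : Compacts (E n)) (f : C(K, E n)) (x : E n) : E n :=
  haveI := Classical.dec (x ∈ (K : Set (E n)))
  if h : x ∈ (K : Set (E n)) then f ⟨x, h⟩ else x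

theorem ext_mem {K : Compacts (E n)} (f : C(K, E n)) {x : E n} (h : x ∈ (K : Set (E n))) :
    ext K f x = f ⟨x, h⟩ := by
  unfold ext
  rw [dif_pos h]

theorem ext_off {K : Compacts (E n)} (f : C(K, E n)) {x : E n} (h : x ∉ (K : Set (E n))) :
    ext K f x = x := by
  unfold ext
  rw [dif_neg h]

theorem closed_range (K : Compacts (E n)) : IsClosed (range (emb K)) := by
  apply isClosed_of_closure_subset
  intro p hp
  obtain ⟨v, hv, hvp⟩ := mem_closure_iff_seq_limit.1 hp
  choose u hu using hv
  obtain ⟨f, g⟩ := p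
  have hvp' : Tendsto (fun k => emb K (u k)) atTop (𝓝 (f, g)) := by
    have : (fun k => emb K (u k)) = v := funext hu
    rw [this]
    exact hvp
  rw [Prod.tendsto_iff,
    ContinuousMap.tendsto_iff_tendstoUniformly, ContinuousMap.tendsto_iff_tendstoUniformly,
    Metric.tendstoUniformly_iff, Metric.tendstoUniformly_iff] at hvp'
  obtain ⟨h1, h2⟩ := hvp'
  have hf : TendstoUniformly (fun (k : ℕ) (x : E n) => (u k : E n ≃ₜ E n) x) (ext K f) atTop :=
    unif_of_K (fun k => (u k).2.1) (fun x hx => ext_off f hx) fun ε hε => by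
      filter_upwards [h1 ε hε] with k hk x hx
      rw [ext_mem f hx]
      exact hk ⟨x, hx⟩
  have hg : TendstoUniformly (fun (k : ℕ) (x : E n) => (u k : E n ≃ₜ E n)⁻¹ x) (ext K g) atTop :=
    unif_of_K (fun k => supp_inv (u k).2.1) (fun x hx => ext_off g hx) fun ε hε => by
      filter_upwards [h2 ε hε] with k hk x hx
      rw [ext_mem g hx]
      exact hk ⟨x, hx⟩
  have cF : Continuous (ext K f) := hf.continuous (Frequently.of_forall fun m => (u m : E n ≃ₜ E n).continuous)
  have cG : Continuous (ext K g) := hg.continuous (Frequently.of_forall fun m => ((u m : E n ≃ₜ E n)⁻¹).continuous)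
  have key : ∀ (f g : ℕ → E n → E n) (F G : E n → E n), TendstoUniformly f F atTop →
      TendstoUniformly g G atTop → Continuous F → (∀ m x, f m (g m x) = x) → ∀ x, F (G x) = x := by
    intro f g F G hf hg hc h x
    have h5 : Tendsto (fun m => f m (g m x)) atTop (𝓝 (F (G x))) :=
      hf.tendsto_comp hc.continuousAt (hg.tendsto_at x)
    simp only [h] at h5
    exact tendsto_nhds_unique h5 tendsto_const_nhds
  let y : E n ≃ₜ E n :=
    { toFun := ext K f
      invFun := ext K g
      left_inv := key _ _ _ _ hg hf cG fun m x => inv_apply_self (u m : E n ≃ₜ E n) x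
      right_inv := key _ _ _ _ hf hg cF fun m x => apply_inv_self (u m : E n ≃ₜ E n) x
      continuous_toFun := cF
      continuous_invFun := cG }
  have hy : ∀ x, x ∉ (K : Set (E n)) → y x = x := fun x hx => ext_off f hx
  have hyK : y ∈ HK n K := HK_closed (fun m => (u m).2) hy hf
  refine ⟨⟨y, hyK⟩, ?_⟩
  refine Prod.ext ?_ ?_
  · ext1 x
    exact ext_mem f x.2
  · ext1 x
    exact ext_mem g x.2

theorem polish_prod (K : Compacts (E n)) : PolishSpace (C(K, E n) × C(K, E n)) :=
  { toSecondCountableTopology := inferInstance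
    toIsCompletelyMetrizableSpace := inferInstance }

instance (K : Compacts (E n)) : PolishSpace (GK K) :=
  haveI := polish_prod K
  (IsClosedEmbedding.mk (emb_embedding K) (closed_range K)).polishSpace

/-- the neighbourhoods of the identity -/
theorem nhds_one_ball {K : Compacts (E n)} {V : Set (GK K)} (hV : V ∈ 𝓝 (1 : GK K)) :
    ∃ ε > 0, ∀ φ : GK K, (∀ x, dist ((φ : E n ≃ₜ E n) x) x < ε) → φ ∈ V := by
  by_contra hc
  push Not at hc
  choose u hu1 hu2 using fun k : ℕ => hc (1 / ((k : ℝ) + 1)) (by positivity)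
  have h1 : Tendsto u atTop (𝓝 1) := by
    rw [tendsto_iff]
    refine uconv_of uc K.isCompact (fun _ _ => rfl) ?_
    rw [Metric.tendstoUniformly_iff]
    intro ε hε
    filter_upwards [(tendsto_one_div_add_atTop_nhds_zero_nat (𝕜 := ℝ)).eventually
      (gt_mem_nhds hε)] with k hk x
    rw [dist_comm]
    exact (hu1 k x).trans hk
  obtain ⟨k, hk⟩ := (h1.eventually hV).exists
  exact hu2 k hk

/-- the balls are neighbourhoods -/
theorem ball_nhds {K : Compacts (E n)} (φ : GK K) {ε : ℝ} (hε : 0 < ε) :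
    {ψ : GK K | ∀ x, dist ((ψ : E n ≃ₜ E n) x) ((φ : E n ≃ₜ E n) x) < ε} ∈ 𝓝 φ := by
  by_contra hc
  obtain ⟨u, hu1, hu2⟩ := exists_seq_forall_of_frequently (l := 𝓝 φ)
    (p := fun ψ => ¬ ∀ x, dist ((ψ : E n ≃ₜ E n) x) ((φ : E n ≃ₜ E n) x) < ε) (by
      rw [Filter.Frequently]
      intro h
      apply hc
      filter_upwards [h] with ψ hψ
      exact not_not.1 hψ)
  rw [tendsto_iff] at hu1
  obtain ⟨k, hk⟩ := (Metric.tendstoUniformly_iff.1 hu1.1 ε hε).exists
  apply hu2 k
  intro x
  rw [dist_comm]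
  exact hk x

end Pool.Agent.J6H85.ZO
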